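import Pool.Agent.H927R2.RD.Core

set_option autoImplicit false

/-! Return sets of products of polynomial self-maps of affine spaces from a condition modulo `p`. -/

namespace Pool.Agent.U100.MQ

open MvPolynomial
open Pool.Agent.H936R2

/-- The product of the polynomial self-maps `F j` of the spaces `ℂ^(n j)`. -/
noncomputable def affMap {m : ℕ} {n : Fin m → ℕ}
    (F : ∀ j, Fin (n j) → MvPolynomial (Fin (n j)) ℂ)
    (x : ∀ j, Fin (n j) → ℂ) : ∀ j, Fin (n j) → ℂ :=
  fun j i => eval (x j) (F j i)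

/-- The Dynamical Mordell-Lang property of the point `α` for the product of the maps `F j`: for every
closed subset of the product of the affine spaces the return set is a finite union of arithmetic
progressions. -/
def AffDML {m : ℕ} {n : Fin m → ℕ} (F : ∀ j, Fin (n j) → MvPolynomial (Fin (n j)) ℂ)
    (α : ∀ j, Fin (n j) → ℂ) : Prop :=
  ∀ S : Set (MvPolynomial (Σ j : Fin m, Fin (n j)) ℂ),
    ∃ T : Finset (ℕ × ℕ),
      {t : ℕ | ∀ g ∈ S, eval (fun q => (affMap F)^[t] α q.1 q.2) g = 0} =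
        {t : ℕ | ∃ q ∈ T, ∃ k : ℕ, t = q.1 * k + q.2}

/-- the system on the product -/
noncomputable def abig {m : ℕ} {n : Fin m → ℕ} {R : Type} [CommRing R]
    (F : ∀ j, Fin (n j) → MvPolynomial (Fin (n j)) R) :
    (Σ j : Fin m, Fin (n j)) → MvPolynomial (Σ j : Fin m, Fin (n j)) R :=
  fun q => rename (Sigma.mk q.1) (F q.1 q.2)

theorem pt_abig {m : ℕ} {n : Fin m → ℕ} {R : Type} [CommRing R]
    (F : ∀ j, Fin (n j) → MvPolynomial (Fin (n j)) R)
    (x : ∀ j, Fin (n j) → R) (t : ℕ) :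
    (pt (abig F))^[t] (fun q => x q.1 q.2) = fun q => (pt (F q.1))^[t] (x q.1) q.2 := by
  induction t with
  | zero => rfl
  | succ t ih =>
    rw [Function.iterate_succ_apply', ih]
    funext q
    rw [Function.iterate_succ_apply']
    simp only [pt, abig]
    rw [eval_rename]
    rfl

theorem aff_iter {m : ℕ} {n : Fin m → ℕ}
    (F : ∀ j, Fin (n j) → MvPolynomial (Fin (n j)) ℂ)
    (x : ∀ j, Fin (n j) → ℂ) (t : ℕ) :
    (affMap F)^[t] x = fun j => (pt (F j))^[t] (x j) := by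
  induction t with
  | zero => rfl
  | succ t ih =>
    rw [Function.iterate_succ_apply', ih]
    funext j
    rw [Function.iterate_succ_apply']
    rfl

theorem ajac_off {m : ℕ} {n : Fin m → ℕ} {R : Type} [CommRing R] (j j' : Fin m) (h : j ≠ j')
    (i' : Fin (n j')) (P : MvPolynomial (Fin (n j)) R) :
    pderiv (⟨j', i'⟩ : Σ j : Fin m, Fin (n j))
      (rename (Sigma.mk (β := fun j => Fin (n j)) j) P) = 0 := by
  apply pderiv_eq_zero_of_notMem_vars
  intro hmem
  obtain ⟨a, -, ha⟩ := mem_vars_rename _ _ hmem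
  exact h (congrArg Sigma.fst ha)

theorem ajac_big {m : ℕ} {n : Fin m → ℕ} {R : Type} [CommRing R]
    (F : ∀ j, Fin (n j) → MvPolynomial (Fin (n j)) R)
    (x : (Σ j : Fin m, Fin (n j)) → R) :
    jac (abig F) x = Matrix.blockDiagonal' (fun j => jac (F j) (fun i => x ⟨j, i⟩)) := by
  ext ⟨j, i⟩ ⟨j', i'⟩
  rw [Matrix.blockDiagonal'_apply]
  simp only [jac, abig]
  by_cases h : j = j'
  · subst h
    rw [dif_pos rfl, pderiv_rename sigma_mk_injective, eval_rename]
    rfl
  · rw [dif_neg h, ajac_off j j' h, map_zero]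

theorem aunit_block {m : ℕ} {n : Fin m → ℕ} {R : Type} [CommRing R]
    (M : ∀ j : Fin m, Matrix (Fin (n j)) (Fin (n j)) R) (h : ∀ j, IsUnit (M j).det) :
    IsUnit (Matrix.blockDiagonal' M).det := by
  have h0 : ∀ j, M j * (M j)⁻¹ = 1 := fun j => Matrix.mul_nonsing_inv (M j) (h j)
  have h1 : (fun j => M j * (M j)⁻¹) =
      (1 : ∀ j : Fin m, Matrix (Fin (n j)) (Fin (n j)) R) := by
    funext j
    exact h0 j
  have h2 : Matrix.blockDiagonal' M * Matrix.blockDiagonal' (fun j => (M j)⁻¹) = 1 := by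
    rw [← Matrix.blockDiagonal'_mul, h1, Matrix.blockDiagonal'_one]
  exact Matrix.isUnit_det_of_right_inverse h2

theorem aff_mod {p : ℕ} [hp : Fact p.Prime] {m : ℕ} {n : Fin m → ℕ}
    (F : ∀ j, Fin (n j) → MvPolynomial (Fin (n j)) ℂ)
    (FZ : ∀ j, Fin (n j) → MvPolynomial (Fin (n j)) ℤ_[p])
    (τ : ℂ →+* PadicAlgCl p)
    (hFZ : ∀ j i, map τ (F j i) =
      map ((algebraMap ℚ_[p] (PadicAlgCl p)).comp (algebraMap ℤ_[p] ℚ_[p])) (FZ j i))
    (α : ∀ j, Fin (n j) → ℂ) (z : ∀ j, Fin (n j) → ℤ_[p])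
    (hz : ∀ j i, τ (α j i) =
      ((algebraMap ℚ_[p] (PadicAlgCl p)).comp (algebraMap ℤ_[p] ℚ_[p])) (z j i)) (M0 : ℕ)
    (h2 : ∀ j t, M0 ≤ t → (jac (fun i => map PadicInt.toZMod (FZ j i))
      ((pt fun i => map PadicInt.toZMod (FZ j i))^[t] (fun i => PadicInt.toZMod (z j i)))).det ≠ 0) :
    AffDML F α := by
  intro S
  have hnorm : ∀ x : ℚ_[p], ‖algebraMap ℚ_[p] (PadicAlgCl p) x‖ = ‖x‖ := fun x => by
    simp
  set ψ' : ℤ_[p] →+* PadicAlgCl p :=
    (algebraMap ℚ_[p] (PadicAlgCl p)).comp (algebraMap ℤ_[p] ℚ_[p]) with hψ'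
  let ψ : ℤ_[p] →+* unitBall (PadicAlgCl p) :=
    ψ'.codRestrict _ (by
      intro x
      change ‖algebraMap ℚ_[p] (PadicAlgCl p) (x : ℚ_[p])‖ ≤ 1
      rw [hnorm]
      exact x.2)
  have hψ : ∀ x : ℤ_[p], ((ψ x : unitBall (PadicAlgCl p)) : PadicAlgCl p) = ψ' x := fun x => rfl
  have hunit : ∀ j t, M0 ≤ t → IsUnit (jac (FZ j) ((pt (FZ j))^[t] (z j))).det := by
    intro j t ht
    have e3 := pt_map (PadicInt.toZMod : ℤ_[p] →+* ZMod p) (FZ j) (z j) t
    have e4 := jac_map (PadicInt.toZMod : ℤ_[p] →+* ZMod p) (FZ j) ((pt (FZ j))^[t] (z j))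
    rw [← e3] at e4
    have h6 := h2 j t ht
    rw [e4, ← RingHom.map_det] at h6
    by_contra hnu
    apply h6
    have h7 : (jac (FZ j) ((pt (FZ j))^[t] (z j))).det ∈ IsLocalRing.maximalIdeal ℤ_[p] := by
      rw [IsLocalRing.mem_maximalIdeal]
      exact hnu
    rw [← PadicInt.ker_toZMod] at h7
    exact h7
  set FO : (Σ j : Fin m, Fin (n j)) → MvPolynomial (Σ j : Fin m, Fin (n j))
    (unitBall (PadicAlgCl p)) := fun q => map ψ (abig FZ q) with hFO
  set b : (Σ j : Fin m, Fin (n j)) → unitBall (PadicAlgCl p) := fun q => ψ (z q.1 q.2) with hb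
  have horb : ∀ t, (pt FO)^[t] b = fun q => ψ ((pt (FZ q.1))^[t] (z q.1) q.2) := by
    intro t
    have e1 := pt_map ψ (abig FZ) (fun q => z q.1 q.2) t
    rw [pt_abig] at e1
    exact e1
  have hdet : ∀ t, M0 ≤ t → IsUnit (jac FO ((pt FO)^[t] b)).det := by
    intro t ht
    have e2 := jac_map ψ (abig FZ) (fun q => (pt (FZ q.1))^[t] (z q.1) q.2)
    rw [horb t, hFO, e2, ← RingHom.map_det]
    apply IsUnit.map
    rw [ajac_big]
    exact aunit_block _ fun j => hunit j t ht
  have hit : ∀ t j i, ψ' ((pt (FZ j))^[t] (z j) i) = τ ((affMap F)^[t] α j i) := by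
    intro t j i
    have e1 := pt_map ψ' (FZ j) (z j) t
    have e2 := pt_map τ (F j) (α j) t
    have e4 : (fun i => ψ' (z j i)) = fun i => τ (α j i) := by
      funext i
      exact (hz j i).symm
    have e5 : (fun i => map ψ' (FZ j i)) = fun i => map τ (F j i) := by
      funext i
      exact (hFZ j i).symm
    rw [e5, e4, e2] at e1
    rw [aff_iter]
    exact (congrFun e1 i).symm
  obtain ⟨n0, k, hk, hret⟩ := return_set p FO b M0 hdet
  apply exists_progressions _ n0 k hk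
  intro r hinf t
  have hiff : ∀ t, (∀ g ∈ S, eval (fun q => (affMap F)^[t] α q.1 q.2) g = 0) ↔
      ∀ P ∈ (fun g => map τ g) '' S,
        eval (fun q => (((pt FO)^[t] b q : unitBall (PadicAlgCl p)) : PadicAlgCl p)) P = 0 := by
    intro t
    have hval : ∀ g ∈ S,
        (eval (fun q => (((pt FO)^[t] b q : unitBall (PadicAlgCl p)) : PadicAlgCl p)) (map τ g) = 0
          ↔ eval (fun q => (affMap F)^[t] α q.1 q.2) g = 0) := by
      intro g hg
      have e0 : (fun q => (((pt FO)^[t] b q : unitBall (PadicAlgCl p)) : PadicAlgCl p)) =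
          fun q => τ ((affMap F)^[t] α q.1 q.2) := by
        funext q
        rw [horb t, ← hit t q.1 q.2]
        rfl
      rw [e0]
      have e1 : eval (fun q : (Σ j : Fin m, Fin (n j)) => τ ((affMap F)^[t] α q.1 q.2))
          (map τ g) = τ (eval (fun q => (affMap F)^[t] α q.1 q.2) g) := by
        rw [eval_map]
        have h := eval₂_comp_left τ (RingHom.id _) (fun q => (affMap F)^[t] α q.1 q.2) g
        rw [RingHom.comp_id] at h
        exact h.symm
      rw [e1, map_eq_zero]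
    constructor
    · rintro h P ⟨g, hg, rfl⟩
      exact (hval g hg).2 (h g hg)
    · intro h g hg
      exact (hval g hg).1 (h _ ⟨g, hg, rfl⟩)
  simp only [Set.mem_ofPred_eq, hiff] at hinf ⊢
  exact hret _ r hinf t

end Pool.Agent.U100.MQ
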