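import Pool.Agent.U100.KC.Emb

set_option autoImplicit false

/-! The embedding of `Pool.Agent.U100.KC.core` with residues. -/

namespace Pool.Agent.U100.MQ

open MvPolynomial Pool.Agent.H936R2
open Pool.Agent.H927R2.RD

/-- the core: a simple root modulo `p` gives an embedding which is integral on `s` -/
theorem core' {s : Finset ℂ} {r : ℕ} {t : Fin r → ℂ} {θ : ℂ}
    {P : Polynomial (MvPolynomial (Fin r) ℤ)} {g q : MvPolynomial (Fin r) ℤ}
    (ht : AlgebraicIndependent ℚ t) (hg : g ≠ 0)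
    (hθ : IsIntegral (IntermediateField.adjoin ℚ (Set.range t)) θ)
    (hP : P.map (toAdj t) = Polynomial.C (toAdj t g) *
        minpoly (IntermediateField.adjoin ℚ (Set.range t)) θ)
    (hs : ∀ x ∈ s, x ∈ IntermediateField.adjoin (IntermediateField.adjoin ℚ (Set.range t)) {θ})
    (Qx : ℂ → Polynomial (MvPolynomial (Fin r) ℤ))
    (hq : ∀ x ∈ s, ((toAdj t q : IntermediateField.adjoin ℚ (Set.range t)) : ℂ) * x =
        Polynomial.aeval θ ((Qx x).map (toAdj t)))
    (a : Fin r → ℤ) {p : ℕ} [Fact p.Prime] {b : ℤ}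
    (hqa : ¬ (p : ℤ) ∣ MvPolynomial.eval a q)
    (hb : (p : ℤ) ∣ (P.map (MvPolynomial.eval a)).eval b)
    (hb' : ¬ (p : ℤ) ∣ (Polynomial.derivative (P.map (MvPolynomial.eval a))).eval b)
    (t' : Fin r → ℤ_[p]) (ht' : AlgebraicIndependent ℚ (fun i => (t' i : ℚ_[p])))
    (ht'a : ∀ i, (PadicInt.toZMod (t' i) : ZMod p) = (a i : ZMod p)) :
    ∃ φ : Subfield.closure (s : Set ℂ) →+* ℚ_[p], ∀ x : Subfield.closure (s : Set ℂ),
      (x : ℂ) ∈ s → ∃ y : ℤ_[p], φ x = (y : ℚ_[p]) ∧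
        ((MvPolynomial.eval a q : ℤ) : ZMod p) * PadicInt.toZMod y =
          ((((Qx x).map (MvPolynomial.eval a)).eval b : ℤ) : ZMod p) := by
  classical
  set φ : MvPolynomial (Fin r) ℤ →+* ℤ_[p] := MvPolynomial.eval₂Hom (Int.castRingHom ℤ_[p]) t'
    with hφ
  set F : Polynomial ℤ_[p] := P.map φ with hF
  have hcomp : (PadicInt.toZMod (p := p)).comp φ =
      (Int.castRingHom (ZMod p)).comp (MvPolynomial.eval a) := by
    apply MvPolynomial.ringHom_ext
    · intro n
      simp [hφ]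
    · intro i
      simp [hφ, ht'a]
  have hred : ∀ Q : Polynomial (MvPolynomial (Fin r) ℤ),
      PadicInt.toZMod ((Q.map φ).eval (b : ℤ_[p])) =
        (((Q.map (MvPolynomial.eval a)).eval b : ℤ) : ZMod p) := by
    intro Q
    have h1 : PadicInt.toZMod ((Q.map φ).eval (b : ℤ_[p])) =
        ((Q.map φ).map PadicInt.toZMod).eval (PadicInt.toZMod (b : ℤ_[p])) := by
      rw [Polynomial.eval_map_apply]
    have h2 : (((Q.map (MvPolynomial.eval a)).eval b : ℤ) : ZMod p) =
        ((Q.map (MvPolynomial.eval a)).map (Int.castRingHom (ZMod p))).eval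
          ((Int.castRingHom (ZMod p)) b) := by
      rw [Polynomial.eval_map_apply]; rfl
    rw [h1, h2, Polynomial.map_map, Polynomial.map_map, hcomp]
    simp
  have hunit : ∀ x : ℤ_[p], PadicInt.toZMod x ≠ 0 → ‖x‖ = 1 := by
    intro x h1
    by_contra hne
    apply h1
    have h2 : x ∈ RingHom.ker (PadicInt.toZMod (p := p)) := by
      rw [PadicInt.ker_toZMod, IsLocalRing.mem_maximalIdeal, PadicInt.mem_nonunits]
      exact lt_of_le_of_ne (PadicInt.norm_le_one _) hne
    exact h2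
  have hroot0 : ‖F.eval (b : ℤ_[p])‖ < 1 := by
    have h1 : PadicInt.toZMod (F.eval (b : ℤ_[p])) = 0 := by
      rw [hF, hred, ZMod.intCast_zmod_eq_zero_iff_dvd]
      exact hb
    have h2 : F.eval (b : ℤ_[p]) ∈ RingHom.ker (PadicInt.toZMod (p := p)) := h1
    rw [PadicInt.ker_toZMod, IsLocalRing.mem_maximalIdeal, PadicInt.mem_nonunits] at h2
    exact h2
  have hder1 : ‖F.derivative.eval (b : ℤ_[p])‖ = 1 := by
    apply hunit
    rw [hF, Polynomial.derivative_map, hred, ← Polynomial.derivative_map, Ne,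
      ZMod.intCast_zmod_eq_zero_iff_dvd]
    exact hb'
  have hqu : ‖φ q‖ = 1 := by
    apply hunit
    have h1 := congrArg (fun f : MvPolynomial (Fin r) ℤ →+* ZMod p => f q) hcomp
    simp only [RingHom.comp_apply] at h1
    rw [h1, eq_intCast, Ne, ZMod.intCast_zmod_eq_zero_iff_dvd]
    exact hqa
  obtain ⟨z, hz, hza, -⟩ := hensels_lemma (p := p) (F := F) (a := (b : ℤ_[p])) (by
    rw [Polynomial.coe_aeval_eq_eval]
    show ‖F.eval (b : ℤ_[p])‖ < ‖F.derivative.eval (b : ℤ_[p])‖ ^ 2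
    rw [hder1]
    simpa using hroot0)
  rw [Polynomial.coe_aeval_eq_eval] at hz
  have hzb : PadicInt.toZMod z = (b : ZMod p) := by
    have h1 : ‖z - (b : ℤ_[p])‖ < 1 := by
      rw [Polynomial.coe_aeval_eq_eval] at hza
      rw [← hder1]
      exact hza
    have h2 : z - (b : ℤ_[p]) ∈ RingHom.ker (PadicInt.toZMod (p := p)) := by
      rw [PadicInt.ker_toZMod, IsLocalRing.mem_maximalIdeal, PadicInt.mem_nonunits]
      exact h1
    have h3 : PadicInt.toZMod (z - (b : ℤ_[p])) = 0 := h2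
    rw [map_sub, sub_eq_zero] at h3
    rw [h3, map_intCast]
  -- the field embedding
  set K := IntermediateField.adjoin ℚ (Set.range t) with hK
  let ψ : K →+* ℚ_[p] := (T15.psi ht ht' : K →+* ℚ_[p])
  have hψ : ∀ g' : MvPolynomial (Fin r) ℤ, ψ (toAdj t g') = ((φ g' : ℤ_[p]) : ℚ_[p]) := by
    intro g'
    have h1 := T15.psi_toAdj ht ht' g'
    rw [show ψ (toAdj t g') = T15.psi ht ht' (toAdj t g') from rfl, h1]
    have h2 : (PadicInt.Coe.ringHom (p := p)).comp φ =
        MvPolynomial.eval₂Hom (Int.castRingHom ℚ_[p]) (fun i => (t' i : ℚ_[p])) := by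
      apply MvPolynomial.ringHom_ext
      · intro n
        simp [hφ]
      · intro i
        simp only [hφ, RingHom.comp_apply, coe_eval₂Hom, eval₂_X]
        rfl
    exact (congrArg (fun f : MvPolynomial (Fin r) ℤ →+* ℚ_[p] => f g') h2).symm
  have hev : ∀ Q : Polynomial (MvPolynomial (Fin r) ℤ),
      ((Q.map (toAdj t)).map ψ).eval (z : ℚ_[p]) = (((Q.map φ).eval z : ℤ_[p]) : ℚ_[p]) := by
    intro Q
    have h1 : (Q.map (toAdj t)).map ψ = (Q.map φ).map (PadicInt.Coe.ringHom (p := p)) := by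
      have hh : ψ.comp (toAdj t) = (PadicInt.Coe.ringHom (p := p)).comp φ := RingHom.ext hψ
      rw [Polynomial.map_map, Polynomial.map_map, hh]
    rw [h1]
    have : (z : ℚ_[p]) = PadicInt.Coe.ringHom z := rfl
    rw [this, Polynomial.eval_map_apply]
    rfl
  have hmin : ((minpoly K θ).map ψ).eval (z : ℚ_[p]) = 0 := by
    have h2 : ((P.map (toAdj t)).map ψ).eval (z : ℚ_[p]) = 0 := by
      rw [hev, hz]
      rfl
    rw [hP, Polynomial.map_mul, Polynomial.map_C, Polynomial.eval_mul, Polynomial.eval_C] at h2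
    have h3 : ψ (toAdj t g) ≠ 0 := by
      rw [Ne, map_eq_zero]
      intro h0
      exact hg (T15.toAdj_injective ht (by rw [h0, map_zero]))
    exact (mul_eq_zero.1 h2).resolve_left h3
  let _ : Algebra K ℚ_[p] := ψ.toAlgebra
  have hmem : (z : ℚ_[p]) ∈ (minpoly K θ).aroots ℚ_[p] := by
    rw [Polynomial.mem_aroots]
    refine ⟨minpoly.ne_zero hθ, ?_⟩
    rw [Polynomial.aeval_def, Polynomial.eval₂_eq_eval_map]
    exact hmin
  let χ : IntermediateField.adjoin K {θ} →ₐ[K] ℚ_[p] :=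
    (IntermediateField.algHomAdjoinIntegralEquiv K hθ).symm ⟨(z : ℚ_[p]), hmem⟩
  have hχθ : χ (IntermediateField.AdjoinSimple.gen K θ) = (z : ℚ_[p]) :=
    IntermediateField.algHomAdjoinIntegralEquiv_symm_apply_gen K hθ ⟨(z : ℚ_[p]), hmem⟩
  have hle : Subfield.closure (s : Set ℂ) ≤ (IntermediateField.adjoin K {θ}).toSubfield := by
    rw [Subfield.closure_le]
    intro x hx
    exact hs x hx
  refine ⟨(χ : IntermediateField.adjoin K {θ} →+* ℚ_[p]).comp (Subfield.inclusion hle),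
    fun x hx => ?_⟩
  have hQ := hq _ hx
  set Q := Qx (x : ℂ) with hQdef
  have h1 : (algebraMap K (IntermediateField.adjoin K {θ}) (toAdj t q)) *
      (Subfield.inclusion hle x : IntermediateField.adjoin K {θ}) =
      Polynomial.aeval (IntermediateField.AdjoinSimple.gen K θ) (Q.map (toAdj t)) := by
    apply (algebraMap (IntermediateField.adjoin K {θ}) ℂ).injective
    rw [← Polynomial.aeval_algebraMap_apply, IntermediateField.AdjoinSimple.algebraMap_gen, ← hQ,
      map_mul]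
    rfl
  have h2 := congrArg χ h1
  rw [map_mul, AlgHom.commutes, ← Polynomial.aeval_algHom_apply, hχθ, Polynomial.aeval_def,
    Polynomial.eval₂_eq_eval_map] at h2
  have h3 : (algebraMap K ℚ_[p]) (toAdj t q) = ((φ q : ℤ_[p]) : ℚ_[p]) := hψ q
  rw [h3] at h2
  have h4 : ((Q.map (toAdj t)).map (algebraMap K ℚ_[p])).eval (z : ℚ_[p]) =
      (((Q.map φ).eval z : ℤ_[p]) : ℚ_[p]) := hev Q
  rw [h4] at h2
  have h5 := congrArg (fun y : ℚ_[p] => ‖y‖) h2
  simp only [norm_mul] at h5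
  have h6 : ‖((φ q : ℤ_[p]) : ℚ_[p])‖ = 1 := hqu
  rw [h6, one_mul] at h5
  have h8 : ‖χ (Subfield.inclusion hle x : IntermediateField.adjoin K {θ})‖ ≤ 1 := by
    rw [h5]
    exact PadicInt.norm_le_one _
  obtain ⟨y, hy⟩ : ∃ y : ℤ_[p],
      χ (Subfield.inclusion hle x : IntermediateField.adjoin K {θ}) = (y : ℚ_[p]) := ⟨⟨_, h8⟩, rfl⟩
  refine ⟨y, hy, ?_⟩
  rw [hy] at h2
  have h9 : φ q * y = (Q.map φ).eval z := by
    apply PadicInt.ext
    exact h2
  have h10 := congrArg (PadicInt.toZMod (p := p)) h9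
  rw [map_mul] at h10
  have h11 := congrArg (fun f : MvPolynomial (Fin r) ℤ →+* ZMod p => f q) hcomp
  simp only [RingHom.comp_apply, eq_intCast] at h11
  rw [h11] at h10
  rw [h10, ← Polynomial.eval_map_apply, Polynomial.map_map, hcomp, hzb, ← Polynomial.map_map]
  have h12 : ((((Q.map (MvPolynomial.eval a)).eval b : ℤ)) : ZMod p) =
      (Int.castRingHom (ZMod p)) ((Q.map (MvPolynomial.eval a)).eval b) := rfl
  rw [h12, ← Polynomial.eval_map_apply]
  rfl

end Pool.Agent.U100.MQ
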