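import Pool.Agent.U100.MQ.ModO
import Pool.Agent.H927R2.RD.Core

set_option autoImplicit false

/-! One factor: the Jacobian determinant along the reduction of an orbit. -/

namespace Pool.Agent.U100.MQ

open MvPolynomial
open Pool.Agent.H936R2 (jac pt)
open Pool.Agent.U100.MR (span_zero bar)
open Pool.Agent.H927R2.RD (eventually_periodic)

theorem certO {ι κ : Type} [Fintype κ] {n : ℕ} (O : Subring ℂ) (A : ι → MvPolynomial (Fin n) O)
    (Q : κ → MvPolynomial (Fin n) O)
    (h : ∀ c, ∀ x : Fin n → ℂ, (∀ a, eval₂ O.subtype x (A a) = 0) →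
      eval₂ O.subtype x (Q c) = 0) :
    ∃ b : O, b ≠ 0 ∧ ∀ (k : Type) [Field k] (φ : O →+* k), φ b ≠ 0 → ∀ y : Fin n → k,
      (∀ a, eval₂ φ y (A a) = 0) → ∀ c, eval₂ φ y (Q c) = 0 := by
  choose b e hb hbe using fun c => nullstO O A (Q c) (h c)
  refine ⟨∏ c, b c, Finset.prod_ne_zero_iff.2 fun c _ => hb c, ?_⟩
  intro k _ φ hφ y hy c
  rw [map_prod, Finset.prod_ne_zero_iff] at hφ
  have h3 := span_zero φ y _ hy (hbe c)
  rw [eval₂_mul, eval₂_C, eval₂_pow, mul_eq_zero] at h3
  rcases h3 with h3 | h3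
  · exact absurd h3 (hφ c (Finset.mem_univ c))
  · rcases Nat.eq_zero_or_pos (e c) with h | h
    · rw [h, pow_zero] at h3
      exact absurd h3 one_ne_zero
    · exact (pow_eq_zero_iff h.ne').1 h3

theorem eval₂_bind {n : ℕ} {R k : Type} [CommRing R] [CommRing k] (f : R →+* k) (y : Fin n → k)
    (F : Fin n → MvPolynomial (Fin n) R) (P : MvPolynomial (Fin n) R) :
    eval₂ f y (bind₁ F P) = eval₂ f (fun i => eval₂ f y (F i)) P := by
  have h := eval₂Hom_bind₁ f y F P
  simpa using h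

theorem factor {n : ℕ} (O : Subring ℂ) (s : O →+* O) (F : Fin n → MvPolynomial (Fin n) O)
    (α : Fin n → O) {ιs : Type} [Fintype ιs] (G : ιs → MvPolynomial (Fin n) O) (K : ℕ)
    (ιD : ℕ → Type) [∀ i, Fintype (ιD i)] (D : ∀ i, ιD i → MvPolynomial (Fin n) O)
    (h0 : ∀ y, eval α (D 0 y) = 0)
    (hc : ∀ i < K, ∀ x : Fin n → ℂ, (∀ y, eval₂ O.subtype x (D i y) = 0) →
      ∀ y, eval₂ O.subtype x (bind₁ F (D i y)) = 0)
    (l : ℕ → ℕ)
    (ha : ∀ i < K, ∀ x : Fin n → ℂ, (∀ y, eval₂ O.subtype x (D i y) = 0) →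
      eval₂ O.subtype x (Matrix.of fun i j => pderiv j (F i)).det = 0 →
      (∀ e, eval₂ O.subtype x (D K e) = 0) ∨ (∃ g, eval₂ O.subtype x (G g) = 0) ∨
        ∀ y, eval₂ O.subtype x ((bind₁ F)^[l i] (D (i + 1) y)) = 0)
    (hd : ∀ x : Fin n → ℂ, (∀ y, eval₂ O.subtype x (D 0 y) = 0) →
      (∀ e, eval₂ O.subtype x (bind₁ F (D K e)) = 0) → ∀ e, eval₂ O.subtype x (D K e) = 0)
    (he : ∃ e, eval α (D K e) ≠ 0)
    (hf : ∀ g, ∀ x : Fin n → ℂ, (∀ y, eval₂ O.subtype x (D 0 y) = 0) →
      (∀ m : ℕ, eval₂ O.subtype x (map (s ^ m) (G g)) = 0) →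
      ∀ e, eval₂ O.subtype x (D K e) = 0) :
    ∃ b : O, b ≠ 0 ∧ ∀ (p : ℕ) [Fact p.Prime] (k : Type) [Field k] [CharP k p]
      (φ : O →+* k), (∀ c, φ (s c) = φ c ^ p) → φ b ≠ 0 → ∀ w : Fin n → ZMod p,
        (∀ i, ZMod.castHom (dvd_refl p) k (w i) = φ (α i)) →
        ∀ FF : Fin n → MvPolynomial (Fin n) (ZMod p),
          (∀ i, map (ZMod.castHom (dvd_refl p) k) (FF i) = map φ (F i)) →
          ∃ M0, ∀ t, M0 ≤ t → (jac FF ((pt FF)^[t] w)).det ≠ 0 := by
  classical
  obtain ⟨e0, he0⟩ := he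
  choose b1 hb1 c1 using fun i : Fin K => certO O
    (fun o : Option (ιD i) => o.elim (Matrix.of fun i j => pderiv j (F i)).det (D i))
    (fun q : ιD K × ιD (i + 1) => D K q.1 * (∏ g, G g) * (bind₁ F)^[l i] (D (i + 1) q.2)) (by
      intro q x hx
      rw [eval₂_mul, eval₂_mul, eval₂_prod]
      rcases ha i i.2 x (fun y => hx (some y)) (hx none) with h | ⟨g, h⟩ | h
      · rw [h q.1, zero_mul, zero_mul]
      · rw [Finset.prod_eq_zero (Finset.mem_univ g) h, mul_zero, zero_mul]
      · rw [h q.2, mul_zero])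
  choose b3 hb3 c3 using fun i : Fin K => certO O (D i) (fun y => bind₁ F (D i y))
    (fun y x hx => hc i i.2 x hx y)
  obtain ⟨b4, hb4, c4⟩ := certO O (Sum.elim (D 0) (fun e => bind₁ F (D K e))) (D K)
    (fun e x hx => hd x (fun y => hx (Sum.inl y)) (fun y => hx (Sum.inr y)) e)
  choose b5 hb5 c5 using fun g => certO O (Sum.elim (D 0) (fun m : ℕ => map (s ^ m) (G g))) (D K)
    (fun e x hx => hf g x (fun y => hx (Sum.inl y)) (fun y => hx (Sum.inr y)) e)
  refine ⟨(∏ i, b1 i) * (∏ i, b3 i) * b4 * (∏ g, b5 g) * eval α (D K e0), ?_, ?_⟩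
  · exact mul_ne_zero (mul_ne_zero (mul_ne_zero (mul_ne_zero
      (Finset.prod_ne_zero_iff.2 fun g _ => hb1 g) (Finset.prod_ne_zero_iff.2 fun g _ => hb3 g)) hb4)
      (Finset.prod_ne_zero_iff.2 fun g _ => hb5 g)) he0
  intro p hp k _ _ φ hφ hφb w hw FF hFF
  simp only [map_mul, map_prod, mul_ne_zero_iff, Finset.prod_ne_zero_iff] at hφb
  obtain ⟨⟨⟨⟨h1, h3⟩, h4⟩, h5⟩, h6⟩ := hφb
  have hbar : ∀ (x : Fin n → ZMod p) (P : MvPolynomial (Fin n) (ZMod p)),
      eval (bar k x) (map (ZMod.castHom (dvd_refl p) k) P) =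
      ZMod.castHom (dvd_refl p) k (eval x P) := by
    intro x P
    rw [eval_map]
    have h := eval₂_comp_left (ZMod.castHom (dvd_refl p) k) (RingHom.id _) x P
    rw [RingHom.comp_id] at h
    exact h.symm
  have hstep : ∀ (x : Fin n → ZMod p) (P : MvPolynomial (Fin n) O),
      eval₂ φ (bar k x) (bind₁ F P) = eval₂ φ (bar k (pt FF x)) P := by
    intro x P
    rw [eval₂_bind]
    congr 1
    funext i
    rw [← eval_map, ← hFF, hbar]
    rfl
  have hstep' : ∀ (l : ℕ) (x : Fin n → ZMod p) (P : MvPolynomial (Fin n) O),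
      eval₂ φ (bar k x) ((bind₁ F)^[l] P) = eval₂ φ (bar k ((pt FF)^[l] x)) P := by
    intro l
    induction l with
    | zero => intro x P; rfl
    | succ l ih =>
      intro x P
      rw [Function.iterate_succ_apply, ih, hstep, ← Function.iterate_succ_apply' (pt FF)]
  have hY : ∀ i < K, ∀ t, (∀ y, eval₂ φ (bar k ((pt FF)^[t] w)) (D i y) = 0) →
      ∀ l y, eval₂ φ (bar k ((pt FF)^[t + l] w)) (D i y) = 0 := by
    intro i hi t h l
    induction l with
    | zero => exact h
    | succ l ih =>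
      intro y
      have h7 := c3 ⟨i, hi⟩ k φ (h3 ⟨i, hi⟩ (Finset.mem_univ _)) _ ih y
      rw [hstep, ← Function.iterate_succ_apply' (pt FF)] at h7
      exact h7
  have hev0 : ∀ P : MvPolynomial (Fin n) O,
      eval₂ φ (bar k ((pt FF)^[0] w)) P = φ (eval α P) := by
    intro P
    have h8 : bar k ((pt FF)^[0] w) = fun i => φ (α i) := funext fun i => hw i
    rw [h8]
    have h9 := eval₂_comp_left φ (RingHom.id _) α P
    rw [RingHom.comp_id] at h9
    exact h9.symm
  have hK : 0 < K := by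
    rcases Nat.eq_zero_or_pos K with h | h
    · subst h
      exact absurd (h0 e0) he0
    · exact h
  have hall : ∀ t y, eval₂ φ (bar k ((pt FF)^[t] w)) (D 0 y) = 0 := by
    intro t y
    have h7 := hY 0 hK 0 (fun y => by rw [hev0, h0, map_zero]) t y
    rw [Nat.zero_add] at h7
    exact h7
  have hnE : ∀ t, ¬ ∀ e, eval₂ φ (bar k ((pt FF)^[t] w)) (D K e) = 0 := by
    intro t
    induction t with
    | zero =>
      intro h
      have h7 := h e0
      apply h6
      have h8 : bar k ((pt FF)^[0] w) = fun i => φ (α i) := funext fun i => hw i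
      rw [h8] at h7
      have h9 := eval₂_comp_left φ (RingHom.id _) α (D K e0)
      rw [RingHom.comp_id] at h9
      exact h9.trans h7
    | succ t ih =>
      intro h
      apply ih
      apply c4 k φ h4
      rintro (y | e)
      · exact hall t y
      · show eval₂ φ (bar k ((pt FF)^[t] w)) (bind₁ F (D K e)) = 0
        rw [hstep, ← Function.iterate_succ_apply' (pt FF)]
        exact h e
  have hnG : ∀ t g, eval₂ φ (bar k ((pt FF)^[t] w)) (G g) ≠ 0 := by
    intro t g h
    apply hnE t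
    apply c5 g k φ (h5 g (Finset.mem_univ g))
    rintro (y | m)
    · exact hall t y
    · exact conjO_zero O s φ hφ (G g) _ h m
  have hnP : ∀ t, eval₂ φ (bar k ((pt FF)^[t] w)) (∏ g, G g) ≠ 0 := by
    intro t
    rw [eval₂_prod, Finset.prod_ne_zero_iff]
    exact fun g _ => hnG t g
  obtain ⟨M0, per, hper, hperiod⟩ := eventually_periodic (pt FF) w
  refine ⟨M0, fun t ht hdet => ?_⟩
  have hJ : eval₂ φ (bar k ((pt FF)^[t] w)) (Matrix.of fun i j => pderiv j (F i)).det = 0 := by
    have h7 := (eval₂Hom φ (bar k ((pt FF)^[t] w))).map_det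
      (Matrix.of fun i j => pderiv j (F i))
    have h8 : (eval₂Hom φ (bar k ((pt FF)^[t] w))).mapMatrix
        (Matrix.of fun i j => pderiv j (F i)) =
        (ZMod.castHom (dvd_refl p) k).mapMatrix (jac FF ((pt FF)^[t] w)) := by
      ext i j
      rw [RingHom.mapMatrix_apply, RingHom.mapMatrix_apply, Matrix.map_apply, Matrix.map_apply,
        Matrix.of_apply, jac, ← hbar, ← pderiv_map, hFF, pderiv_map, eval_map]
      rfl
    rw [h8, ← RingHom.map_det, hdet, map_zero] at h7
    exact h7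
  obtain ⟨e1, he1⟩ := not_forall.1 (hnE t)
  have hper' : ∀ l, (pt FF)^[per * l] ((pt FF)^[t] w) = (pt FF)^[t] w := by
    intro l
    rw [Function.iterate_mul]
    exact Function.iterate_fixed (hperiod t ht) l
  have hD : ∀ i, i ≤ K → ∀ y, eval₂ φ (bar k ((pt FF)^[t] w)) (D i y) = 0 := by
    intro i
    induction i with
    | zero => exact fun _ => hall t
    | succ i ih =>
      intro hi
      have hi' : i < K := hi
      have hYk : ∀ y, eval₂ φ (bar k ((pt FF)^[t + l i] w)) (D (i + 1) y) = 0 := by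
        intro y
        have h7 := c1 ⟨i, hi'⟩ k φ (h1 ⟨i, hi'⟩ (Finset.mem_univ _)) (bar k ((pt FF)^[t] w)) (by
          rintro (_ | y)
          · exact hJ
          · exact ih hi'.le y) (e1, y)
        rw [eval₂_mul, eval₂_mul, mul_eq_zero, mul_eq_zero] at h7
        rcases h7 with (h7 | h7) | h7
        · exact absurd h7 he1
        · exact absurd h7 (hnP t)
        · rw [hstep', ← Function.iterate_add_apply] at h7
          rw [Nat.add_comm t (l i)]
          exact h7
      rcases Nat.lt_or_ge (i + 1) K with hlt | hge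
      · have h7 := hY (i + 1) hlt (t + l i) hYk (per * l i - l i)
        have h8 : t + l i + (per * l i - l i) = per * l i + t := by
          have : l i ≤ per * l i := Nat.le_mul_of_pos_left (l i) hper
          omega
        rw [h8, Function.iterate_add_apply, hper'] at h7
        exact h7
      · have h8 : i + 1 = K := le_antisymm hi hge
        subst h8
        exact (hnE _ hYk).elim
  exact he1 (hD K le_rfl e1)

end Pool.Agent.U100.MQ
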