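import Pool.Agent.W401.Cheb.Main

set_option autoImplicit false

/-! Extension of a homomorphism on the ring of integers to the elements which are integral at a prime. -/

namespace Pool.Agent.U100.MQ

open NumberField
open Pool.Agent.W401.Cheb (HasFrob)

/-- the elements with a denominator not in the kernel of `φ` -/
def locSub {A M k : Type} [CommRing A] [IsDomain A] [Field M] [Algebra A M] [Field k]
    (φ : A →+* k) : Subring M where
  carrier := {x | ∃ s y : A, φ s ≠ 0 ∧ algebraMap A M s * x = algebraMap A M y}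
  mul_mem' := by
    rintro a b ⟨s, y, hs, h⟩ ⟨s', y', hs', h'⟩
    refine ⟨s * s', y * y', by rw [map_mul]; exact mul_ne_zero hs hs', ?_⟩
    rw [map_mul, map_mul, ← h, ← h']
    ring
  one_mem' := ⟨1, 1, by rw [map_one]; exact one_ne_zero, by rw [map_one, mul_one]⟩
  add_mem' := by
    rintro a b ⟨s, y, hs, h⟩ ⟨s', y', hs', h'⟩
    refine ⟨s * s', s' * y + s * y', by rw [map_mul]; exact mul_ne_zero hs hs', ?_⟩
    rw [map_mul, map_add, map_mul, map_mul, ← h, ← h']
    ring
  zero_mem' := ⟨1, 0, by rw [map_one]; exact one_ne_zero, by rw [map_zero, mul_zero]⟩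
  neg_mem' := by
    rintro a ⟨s, y, hs, h⟩
    refine ⟨s, -y, hs, ?_⟩
    rw [map_neg, ← h]
    ring

theorem exists_locHom {A M k : Type} [CommRing A] [IsDomain A] [Field M] [Algebra A M]
    [FaithfulSMul A M] [Field k] (φ : A →+* k) :
    ∃ χ : locSub (M := M) φ →+* k, ∀ (x : locSub (M := M) φ) (s y : A), φ s ≠ 0 →
      algebraMap A M s * x = algebraMap A M y → χ x * φ s = φ y := by
  classical
  have hinj : Function.Injective (algebraMap A M) := FaithfulSMul.algebraMap_injective A M
  choose s y hs h using fun x : locSub (M := M) φ => x.2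
  have key : ∀ (x : locSub (M := M) φ) (s' y' : A), φ s' ≠ 0 →
      algebraMap A M s' * x = algebraMap A M y' → φ (y x) / φ (s x) * φ s' = φ y' := by
    intro x s' y' hs' h'
    have h1 : s' * y x = s x * y' := by
      apply hinj
      rw [map_mul, map_mul, ← h, ← h']
      ring
    have h2 := congrArg φ h1
    rw [map_mul, map_mul] at h2
    rw [div_mul_eq_mul_div, div_eq_iff (hs x), mul_comm (φ (y x)), h2, mul_comm]
  refine ⟨{ toFun := fun x => φ (y x) / φ (s x), map_one' := ?_, map_mul' := ?_,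
            map_zero' := ?_, map_add' := ?_ }, key⟩
  · have h1 := key 1 1 1 (by rw [map_one]; exact one_ne_zero) (by
      rw [map_one, one_mul]; rfl)
    rw [map_one, mul_one] at h1
    exact h1
  · intro a b
    have h1 := key (a * b) (s a * s b) (y a * y b) (by
      rw [map_mul]; exact mul_ne_zero (hs a) (hs b)) (by
      rw [map_mul, map_mul, ← h, ← h]
      show _ * ((a : M) * (b : M)) = _
      ring)
    rw [map_mul, map_mul] at h1
    have ha := hs a
    have hb := hs b
    field_simp
    rw [mul_comm (φ (s a)) (φ (s b))] at h1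
    have h2 : φ (y (a * b)) / φ (s (a * b)) * φ (s a) * φ (s b) = φ (y a) * φ (y b) := by
      rw [← h1]; ring
    rw [← h2]
    have hab := hs (a * b)
    field_simp
  · have h1 := key 0 1 0 (by rw [map_one]; exact one_ne_zero) (by
      rw [map_zero]
      show _ * (0 : M) = 0
      rw [mul_zero])
    rw [map_one, mul_one, map_zero] at h1
    exact h1
  · intro a b
    have h1 := key (a + b) (s a * s b) (s b * y a + s a * y b) (by
      rw [map_mul]; exact mul_ne_zero (hs a) (hs b)) (by
      rw [map_mul, map_add, map_mul, map_mul, ← h, ← h]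
      show _ * ((a : M) + (b : M)) = _
      ring)
    rw [map_mul, map_add, map_mul, map_mul] at h1
    have ha := hs a
    have hb := hs b
    have hab := hs (a + b)
    show φ (y (a + b)) / φ (s (a + b)) = φ (y a) / φ (s a) + φ (y b) / φ (s b)
    rw [div_add_div _ _ ha hb, eq_div_iff (mul_ne_zero ha hb), h1]
    ring

/-- the extension with its Frobenius element -/
theorem local_ext {M : Type} [Field M] [NumberField M] (g : Gal(M/ℚ)) {k : Type} [Field k]
    {p : ℕ} (φ : 𝓞 M →+* k) (hφ : HasFrob p φ g) :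
    ∃ (V : Subring M) (χ : V →+* k),
      (∀ (x : M) (s : 𝓞 M), φ s ≠ 0 → IsIntegral ℤ (algebraMap (𝓞 M) M s * x) → x ∈ V) ∧
      ∀ (x : M) (hx : x ∈ V), ∃ h : g x ∈ V, χ ⟨g x, h⟩ = χ ⟨x, hx⟩ ^ p := by
  obtain ⟨χ, hχ⟩ := exists_locHom (A := 𝓞 M) (M := M) φ
  refine ⟨locSub φ, χ, ?_, ?_⟩
  · intro x s hs hx
    exact ⟨s, ⟨_, hx⟩, hs, rfl⟩
  · intro x hx
    obtain ⟨s, y, hs, h⟩ := id hx
    have hs' : φ (g • s) ≠ 0 := by
      rw [hφ s]
      exact pow_ne_zero _ hs
    have h' : algebraMap (𝓞 M) M (g • s) * g x = algebraMap (𝓞 M) M (g • y) := by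
      have h1 := congrArg g h
      rw [map_mul] at h1
      exact h1
    have hmem : g x ∈ locSub (M := M) φ := ⟨g • s, g • y, hs', h'⟩
    refine ⟨hmem, ?_⟩
    have h1 := hχ ⟨g x, hmem⟩ (g • s) (g • y) hs' h'
    have h2 := hχ ⟨x, hx⟩ s y hs h
    rw [hφ, hφ, ← h2, mul_pow] at h1
    exact mul_right_cancel₀ (pow_ne_zero p hs) h1

end Pool.Agent.U100.MQ
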