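import Pool.Agent.U100.MQ.ThmA
import Pool.Agent.U100.MQ.Factor
import Pool.Agent.U100.MQ.Aff2

set_option autoImplicit false

/-! Dynamical Mordell-Lang for products of polynomial maps with moved ramification. -/

namespace Pool.Agent.U100.MQ

open MvPolynomial
open Pool.Agent.H936R2 (jac pt)
open Pool.Agent.U100.MR (bar)

/-- The self-map of `ℂ ^ n` given by the polynomials `F`. -/
noncomputable def pmap {n : ℕ} (F : Fin n → MvPolynomial (Fin n) ℂ) (x : Fin n → ℂ) : Fin n → ℂ :=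
  fun i => eval x (F i)

/-- The Jacobian determinant of `F` vanishes at `x`. -/
def Crit {n : ℕ} (F : Fin n → MvPolynomial (Fin n) ℂ) (x : Fin n → ℂ) : Prop :=
  (Matrix.of fun i j => eval x (pderiv j (F i))).det = 0

/-- `x` is a zero of all polynomials of the finite set `T`. -/
def Van {n : ℕ} (T : Finset (MvPolynomial (Fin n) ℂ)) (x : Fin n → ℂ) : Prop :=
  ∀ H ∈ T, eval x H = 0

/-- The conjugate of a polynomial. -/
noncomputable def conj {n : ℕ} (σ : ℂ ≃+* ℂ) (G : MvPolynomial (Fin n) ℂ) :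
    MvPolynomial (Fin n) ℂ := map (σ : ℂ →+* ℂ) G

/-- `G` has finitely many conjugates under the powers of `σ`. -/
def FinConj {n : ℕ} (σ : ℂ ≃+* ℂ) (G : MvPolynomial (Fin n) ℂ) : Prop :=
  ∃ m : ℕ, 0 < m ∧ (conj σ)^[m] G = G

/-- The map `F` is critically finite in `D 0` up to critical points moved by `σ`, outside a completely
invariant closed set `D K` which does not contain `α`: there are closed sets `D 0`, `D 1`, …,
`D K`, those with `i < K` forward invariant, `α` in `D 0`, such that the critical points in `D i` lie in `D K`, or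
are mapped to `D (i + 1)` by a fixed iterate, or lie on one of the hypersurfaces `G = 0`, `G ∈ s`,
whose conjugates have no common point outside `D K`. -/
def GoodAt {n : ℕ} (σ : ℂ ≃+* ℂ) (F : Fin n → MvPolynomial (Fin n) ℂ) (α : Fin n → ℂ) : Prop :=
  ∃ (s : Finset (MvPolynomial (Fin n) ℂ)) (K : ℕ) (D : ℕ → Finset (MvPolynomial (Fin n) ℂ)),
    (∀ G ∈ s, FinConj σ G) ∧ (∀ i ≤ K, ∀ G ∈ D i, FinConj σ G) ∧ Van (D 0) α ∧
    (∀ i < K, ∀ x, Van (D i) x → Van (D i) (pmap F x)) ∧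
    (∀ i < K, ∃ l : ℕ, ∀ x, Van (D i) x → Crit F x →
      Van (D K) x ∨ (∃ G ∈ s, eval x G = 0) ∨ Van (D (i + 1)) ((pmap F)^[l] x)) ∧
    (∀ x, Van (D 0) x → Van (D K) (pmap F x) → Van (D K) x) ∧ ¬ Van (D K) α ∧
    ∀ G ∈ s, ∀ x, Van (D 0) x → (∀ m : ℕ, eval x ((conj σ)^[m] G) = 0) → Van (D K) x

theorem coeff_conj_iter {n : ℕ} (σ : ℂ ≃+* ℂ) (G : MvPolynomial (Fin n) ℂ) (m : ℕ)
    (κ : Fin n →₀ ℕ) : coeff κ ((conj σ)^[m] G) = σ^[m] (coeff κ G) := by
  induction m with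
  | zero => rfl
  | succ m ih =>
    rw [Function.iterate_succ_apply', Function.iterate_succ_apply', ← ih, conj, coeff_map]
    rfl

theorem map_iter {n : ℕ} (σ : ℂ ≃+* ℂ) (O : Subring ℂ) (s : O →+* O)
    (hs : ∀ c : O, ((s c : O) : ℂ) = σ c) (P : MvPolynomial (Fin n) O) (m : ℕ) :
    map O.subtype (map (s ^ m) P) = (conj σ)^[m] (map O.subtype P) := by
  induction m with
  | zero =>
    rw [pow_zero]
    show map O.subtype (map (RingHom.id O) P) = _
    rw [map_id]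
    rfl
  | succ m ih =>
    rw [Function.iterate_succ_apply', ← ih, conj, map_map, map_map, map_map]
    have h0 : O.subtype.comp (s ^ (m + 1)) = ((σ : ℂ →+* ℂ).comp O.subtype).comp (s ^ m) := by
      apply RingHom.ext
      intro c
      have h1 : (s ^ (m + 1)) c = s ((s ^ m) c) := by
        rw [pow_succ']
        rfl
      rw [RingHom.comp_apply, h1]
      exact hs ((s ^ m) c)
    rw [h0]

theorem eval₂_det {n : ℕ} {R R' : Type} [CommRing R] [CommRing R'] (f : R →+* R')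
    (x : Fin n → R') (F : Fin n → MvPolynomial (Fin n) R) :
    eval₂ f x (Matrix.of fun i j => pderiv j (F i)).det =
      (Matrix.of fun i j => eval₂ f x (pderiv j (F i))).det := by
  have h := (eval₂Hom f x).map_det (Matrix.of fun i j => pderiv j (F i))
  exact h

theorem lift_poly {n : ℕ} (O : Subring ℂ) (P : MvPolynomial (Fin n) ℂ)
    (h : ∀ c ∈ P.coeffs, c ∈ O) : ∃ Q : MvPolynomial (Fin n) O, map O.subtype Q = P := by
  have h1 : P ∈ Set.range (map (σ := Fin n) O.subtype) := by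
    rw [mem_range_map_iff_coeffs_subset]
    intro c hc
    exact ⟨⟨c, h c hc⟩, rfl⟩
  exact h1

theorem coeffs_fin {n : ℕ} (σ : ℂ ≃+* ℂ) {G : MvPolynomial (Fin n) ℂ} (hG : FinConj σ G) :
    ∀ w ∈ G.coeffs, ∃ m, 0 < m ∧ σ^[m] w = w := by
  intro w hw
  obtain ⟨κ, -, rfl⟩ := mem_coeffs_iff.1 hw
  obtain ⟨M, hM, hMG⟩ := hG
  refine ⟨M, hM, ?_⟩
  rw [← coeff_conj_iter, hMG]

/-- the condition over a ring `O` -/
theorem factor' {n : ℕ} (σ : ℂ ≃+* ℂ) (O : Subring ℂ) (sO : O →+* O)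
    (hsO : ∀ c : O, ((sO c : O) : ℂ) = σ c) (F : Fin n → MvPolynomial (Fin n) ℂ)
    (FO : Fin n → MvPolynomial (Fin n) O) (hFO : ∀ i, map O.subtype (FO i) = F i)
    (α : Fin n → ℂ) (αO : Fin n → O) (hα : ∀ i, (αO i : ℂ) = α i)
    (s : Finset (MvPolynomial (Fin n) ℂ)) (K : ℕ) (D : ℕ → Finset (MvPolynomial (Fin n) ℂ))
    (hs : ∀ G ∈ s, ∀ c ∈ G.coeffs, c ∈ O) (hD : ∀ i ≤ K, ∀ G ∈ D i, ∀ c ∈ G.coeffs, c ∈ O)
    (h0 : Van (D 0) α) (h1 : ∀ i < K, ∀ x, Van (D i) x → Van (D i) (pmap F x))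
    (h2 : ∀ i < K, ∃ l : ℕ, ∀ x, Van (D i) x → Crit F x →
      Van (D K) x ∨ (∃ G ∈ s, eval x G = 0) ∨ Van (D (i + 1)) ((pmap F)^[l] x))
    (h4 : ∀ x, Van (D 0) x → Van (D K) (pmap F x) → Van (D K) x)
    (h5 : ¬ Van (D K) α)
    (h6 : ∀ G ∈ s, ∀ x, Van (D 0) x → (∀ m : ℕ, eval x ((conj σ)^[m] G) = 0) → Van (D K) x) :
    ∃ b : O, b ≠ 0 ∧ ∀ (p : ℕ) [Fact p.Prime] (k : Type) [Field k] [CharP k p]
      (φ : O →+* k), (∀ c, φ (sO c) = φ c ^ p) → φ b ≠ 0 → ∀ w : Fin n → ZMod p,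
        (∀ i, ZMod.castHom (dvd_refl p) k (w i) = φ (αO i)) →
        ∀ FF : Fin n → MvPolynomial (Fin n) (ZMod p),
          (∀ i, map (ZMod.castHom (dvd_refl p) k) (FF i) = map φ (FO i)) →
          ∃ M0, ∀ t, M0 ≤ t → (jac FF ((pt FF)^[t] w)).det ≠ 0 := by
  classical
  choose GO hGO using fun G : s => lift_poly O G.1 (hs G.1 G.2)
  have hDO : ∃ DO : ∀ i, {G // G ∈ D i} → MvPolynomial (Fin n) O,
      ∀ i ≤ K, ∀ G, map O.subtype (DO i G) = G.1 := by
    refine ⟨fun i G => if h : ∀ c ∈ G.1.coeffs, c ∈ O then (lift_poly O G.1 h).choose else 0, ?_⟩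
    intro i hi G
    have h : ∀ c ∈ G.1.coeffs, c ∈ O := hD i hi G.1 G.2
    simp only [dif_pos h]
    exact (lift_poly O G.1 h).choose_spec
  obtain ⟨DO, hDO⟩ := hDO
  have hev : ∀ (x : Fin n → ℂ) (P : MvPolynomial (Fin n) O),
      eval₂ O.subtype x P = eval x (map O.subtype P) := fun x P => by rw [eval_map]
  have hstep : ∀ (x : Fin n → ℂ) (P : MvPolynomial (Fin n) O),
      eval₂ O.subtype x (bind₁ FO P) = eval₂ O.subtype (pmap F x) P := by
    intro x P
    rw [eval₂_bind]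
    congr 1
    funext i
    rw [hev, hFO]
    rfl
  have hstep' : ∀ (l : ℕ) (x : Fin n → ℂ) (P : MvPolynomial (Fin n) O),
      eval₂ O.subtype x ((bind₁ FO)^[l] P) = eval₂ O.subtype ((pmap F)^[l] x) P := by
    intro l
    induction l with
    | zero => intro x P; rfl
    | succ l ih =>
      intro x P
      rw [Function.iterate_succ_apply, ih, hstep, ← Function.iterate_succ_apply' (pmap F)]
  have hcrit : ∀ x : Fin n → ℂ,
      eval₂ O.subtype x (Matrix.of fun i j => pderiv j (FO i)).det = 0 → Crit F x := by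
    intro x hx
    rw [eval₂_det] at hx
    rw [Crit, ← hx]
    congr 1
    ext i i'
    rw [Matrix.of_apply, Matrix.of_apply, hev, ← pderiv_map, hFO]
  have hv : ∀ i ≤ K, ∀ x, (∀ e, eval₂ O.subtype x (DO i e) = 0) ↔ Van (D i) x := by
    intro i hi x
    constructor
    · intro h H hH
      have h7 := h ⟨H, hH⟩
      rwa [hev, hDO i hi] at h7
    · intro h e
      rw [hev, hDO i hi]
      exact h e.1 e.2
  choose! l hl using h2
  refine factor O sO FO αO GO K (fun i => {G // G ∈ D i}) DO ?_ ?_ l ?_ ?_ ?_ ?_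
  · intro y
    have h7 := eval₂_comp_left O.subtype (RingHom.id _) αO (DO 0 y)
    rw [RingHom.comp_id] at h7
    have h8 : (O.subtype ∘ αO) = α := funext fun i => hα i
    rw [h8, hev, hDO 0 (Nat.zero_le K), h0 y.1 y.2] at h7
    exact Subtype.ext h7
  · intro i hi x hx y
    rw [hstep]
    exact (hv i hi.le _).2 (h1 i hi x ((hv i hi.le x).1 hx)) y
  · intro i hi x hy hx
    rcases hl i hi x ((hv i hi.le x).1 hy) (hcrit x hx) with h | ⟨G, hG, h⟩ | h
    · exact Or.inl ((hv K le_rfl x).2 h)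
    · exact Or.inr (Or.inl ⟨⟨G, hG⟩, by rw [hev, hGO, h]⟩)
    · refine Or.inr (Or.inr fun y => ?_)
      rw [hstep']
      exact (hv (i + 1) hi _).2 h y
  · intro x hx0 hx
    rw [hv K le_rfl]
    apply h4 x ((hv 0 (Nat.zero_le K) x).1 hx0)
    rw [← hv K le_rfl]
    intro e
    rw [← hstep]
    exact hx e
  · by_contra hno
    apply h5
    intro H hH
    by_contra hne
    apply hno
    refine ⟨⟨H, hH⟩, fun h0 => hne ?_⟩
    have h7 := eval₂_comp_left O.subtype (RingHom.id _) αO (DO K ⟨H, hH⟩)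
    rw [RingHom.comp_id] at h7
    have h8 : (O.subtype ∘ αO) = α := funext fun i => hα i
    rw [h8, hev, hDO K le_rfl] at h7
    rw [← h7]
    have h9 : eval₂ (RingHom.id O) αO (DO K ⟨H, hH⟩) = 0 := h0
    rw [h9, map_zero]
  · intro g x hx0 hx
    rw [hv K le_rfl]
    apply h6 g.1 g.2 x ((hv 0 (Nat.zero_le K) x).1 hx0)
    intro m
    have h7 := hx m
    rw [hev, map_iter σ O sO hsO, hGO] at h7
    exact h7

theorem master {m : ℕ} {n : Fin m → ℕ} (σ : ℂ ≃+* ℂ)
    (F : ∀ j, Fin (n j) → MvPolynomial (Fin (n j)) ℂ)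
    (hσ : ∀ j i, conj σ (F j i) = F j i)
    (α : ∀ j, Fin (n j) → ℂ) (hfix : ∀ j i, σ (α j i) = α j i)
    (hgood : ∀ j, GoodAt σ (F j) (α j)) : AffDML F α := by
  classical
  choose s K D hs hD h0 h1 h2 h4 h5 h6 using hgood
  set Cs : Finset ℂ := Finset.univ.biUnion fun j =>
    (Finset.univ.biUnion fun i => (F j i).coeffs) ∪ Finset.univ.image (α j) with hCs
  set Ws : Finset ℂ := Finset.univ.biUnion fun j =>
    (s j).biUnion (fun G => G.coeffs) ∪ (Finset.range (K j + 1)).biUnion (fun i =>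
      (D j i).biUnion (fun G => G.coeffs)) with hWs
  have hFC : ∀ j i, ∀ c ∈ (F j i).coeffs, c ∈ Cs := by
    intro j i c hc
    rw [hCs, Finset.mem_biUnion]
    exact ⟨j, Finset.mem_univ j, Finset.mem_union_left _
      (Finset.mem_biUnion.2 ⟨i, Finset.mem_univ i, hc⟩)⟩
  have hαC : ∀ j i, α j i ∈ Cs := by
    intro j i
    rw [hCs, Finset.mem_biUnion]
    exact ⟨j, Finset.mem_univ j, Finset.mem_union_right _
      (Finset.mem_image.2 ⟨i, Finset.mem_univ i, rfl⟩)⟩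
  have hsW : ∀ j, ∀ G ∈ s j, ∀ c ∈ G.coeffs, c ∈ Ws := by
    intro j G hG c hc
    rw [hWs, Finset.mem_biUnion]
    exact ⟨j, Finset.mem_univ j, Finset.mem_union_left _
      (Finset.mem_biUnion.2 ⟨G, hG, hc⟩)⟩
  have hDW : ∀ j, ∀ i ≤ K j, ∀ G ∈ D j i, ∀ c ∈ G.coeffs, c ∈ Ws := by
    intro j i hi G hG c hc
    rw [hWs, Finset.mem_biUnion]
    exact ⟨j, Finset.mem_univ j, Finset.mem_union_right _
      (Finset.mem_biUnion.2 ⟨i, Finset.mem_range.2 (Nat.lt_succ_of_le hi),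
        Finset.mem_biUnion.2 ⟨G, hG, hc⟩⟩)⟩
  obtain ⟨O, hCO, hWO, hσO, key⟩ := thmA σ Cs Ws (by
    intro c hc
    rw [hCs, Finset.mem_biUnion] at hc
    obtain ⟨j, -, hc⟩ := hc
    rw [Finset.mem_union, Finset.mem_biUnion] at hc
    rcases hc with ⟨i, -, hc⟩ | hc
    · obtain ⟨κ, -, rfl⟩ := mem_coeffs_iff.1 hc
      have h1 := congrArg (coeff κ) (hσ j i)
      rw [conj, coeff_map] at h1
      exact h1
    · obtain ⟨i, -, rfl⟩ := Finset.mem_image.1 hc
      exact hfix j i) (by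
    intro w hw
    rw [hWs, Finset.mem_biUnion] at hw
    obtain ⟨j, -, hw⟩ := hw
    rw [Finset.mem_union, Finset.mem_biUnion, Finset.mem_biUnion] at hw
    rcases hw with ⟨G, hG, hw⟩ | ⟨i, hi, hw⟩
    · exact coeffs_fin σ (hs j G hG) w hw
    · rw [Finset.mem_biUnion] at hw
      obtain ⟨G, hG, hw⟩ := hw
      exact coeffs_fin σ (hD j i (Nat.le_of_lt_succ (Finset.mem_range.1 hi)) G hG) w hw)
  let sO : O →+* O := ((σ : ℂ →+* ℂ).comp O.subtype).codRestrict O hσO
  have hsO : ∀ c : O, ((sO c : O) : ℂ) = σ c := fun c => rfl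
  choose FO hFO using fun j (i : Fin (n j)) => lift_poly O (F j i) (fun c hc => hCO (hFC j i c hc))
  let αO : ∀ j, Fin (n j) → O := fun j i => ⟨α j i, hCO (hαC j i)⟩
  choose b hb0 hb using fun j => factor' σ O sO hsO (F j) (FO j) (hFO j) (α j) (αO j)
    (fun _ => rfl) (s j) (K j) (D j) (fun G hG c hc => hWO (hsW j G hG c hc))
    (fun i hi G hG c hc => hWO (hDW j i hi G hG c hc)) (h0 j) (h1 j) (h2 j) (h4 j) (h5 j) (h6 j)
  obtain ⟨p, hp, -, φ, hφb, hφσ, τ, hτ⟩ := key (∏ j, b j)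
    (Finset.prod_ne_zero_iff.2 fun j _ => hb0 j) 0
  rw [map_prod, Finset.prod_ne_zero_iff] at hφb
  set ψ' : ℤ_[p] →+* PadicAlgCl p :=
    (algebraMap ℚ_[p] (PadicAlgCl p)).comp (algebraMap ℤ_[p] ℚ_[p]) with hψ'
  have hψinj : Function.Injective ψ' :=
    (algebraMap ℚ_[p] (PadicAlgCl p)).injective.comp (IsFractionRing.injective ℤ_[p] ℚ_[p])
  -- the coefficients
  have hFZ : ∀ j (i : Fin (n j)), ∃ P : MvPolynomial (Fin (n j)) ℤ_[p],
      map ψ' P = map τ (F j i) := by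
    intro j i
    have h1 : map τ (F j i) ∈ Set.range (map (σ := Fin (n j)) ψ') := by
      rw [mem_range_map_iff_coeffs_subset]
      intro c hc
      obtain ⟨κ, hκ, rfl⟩ := mem_coeffs_iff.1 hc
      have h2 : coeff κ (F j i) ≠ 0 := by
        intro h0
        rw [mem_support_iff, coeff_map, h0, map_zero] at hκ
        exact hκ rfl
      have h3 : coeff κ (F j i) ∈ Cs := hFC j i _ (mem_coeffs_iff.2 ⟨κ, mem_support_iff.2 h2, rfl⟩)
      obtain ⟨y, hy, -⟩ := hτ ⟨_, hCO h3⟩ h3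
      refine ⟨y, ?_⟩
      rw [coeff_map]
      exact hy.symm
    exact h1
  choose FZ hFZ using hFZ
  have hred : ∀ j i, map (ZMod.castHom (dvd_refl p) (AlgebraicClosure (ZMod p)))
      (map (PadicInt.toZMod (p := p)) (FZ j i)) = map φ (FO j i) := by
    intro j i
    ext κ
    rw [coeff_map, coeff_map, coeff_map]
    have h0 : ((coeff κ (FO j i) : O) : ℂ) = coeff κ (F j i) := by
      rw [← hFO, coeff_map]
      rfl
    have h1 : ψ' (coeff κ (FZ j i)) = τ (coeff κ (F j i)) := by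
      rw [← coeff_map, hFZ, coeff_map]
    by_cases h2 : coeff κ (F j i) = 0
    · rw [h2, map_zero] at h1
      have h3 : coeff κ (FZ j i) = 0 := hψinj (by rw [h1, map_zero])
      have h4 : coeff κ (FO j i) = 0 := Subtype.ext (h0.trans h2)
      rw [h3, h4, map_zero, map_zero, map_zero]
    · have h3 : coeff κ (F j i) ∈ Cs := hFC j i _ (mem_coeffs_iff.2 ⟨κ, mem_support_iff.2 h2, rfl⟩)
      obtain ⟨y, hy, hy2⟩ := hτ (coeff κ (FO j i)) (by rw [h0]; exact h3)
      have h4 : coeff κ (FZ j i) = y := by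
        apply hψinj
        rw [h1, ← h0]
        exact hy
      rw [h4, hy2]
  -- the point
  choose z hz hz2 using fun j i => hτ (αO j i) (hαC j i)
  choose M0 hM0 using fun j => hb j p (AlgebraicClosure (ZMod p)) φ hφσ
    (hφb j (Finset.mem_univ j)) (fun i => PadicInt.toZMod (z j i)) (fun i => (hz2 j i).symm)
    (fun i => map PadicInt.toZMod (FZ j i)) (hred j)
  refine aff_mod (p := p) F FZ τ (fun j i => (hFZ j i).symm) α z (fun j i => hz j i)
    (Finset.univ.sup M0) ?_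
  intro j t ht
  exact hM0 j t ((Finset.le_sup (Finset.mem_univ j)).trans ht)

end Pool.Agent.U100.MQ
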