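import Pool.Agent.U100.MR.Mod

set_option autoImplicit false

/-! Certificates over a subring of `ℂ` and their reduction. -/

namespace Pool.Agent.U100.MQ

open MvPolynomial
open Pool.Agent.U100.MR (nullst span_zero bar bar_zero)

theorem nullstO {ι : Type} {n : ℕ} (O : Subring ℂ) (H : ι → MvPolynomial (Fin n) O)
    (Q : MvPolynomial (Fin n) O)
    (h : ∀ x : Fin n → ℂ, (∀ i, eval₂ O.subtype x (H i) = 0) → eval₂ O.subtype x Q = 0) :
    ∃ (b : O) (e : ℕ), b ≠ 0 ∧ C b * Q ^ e ∈ Ideal.span (Set.range H) := by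
  let _ : Algebra (FractionRing O) ℂ := FractionRing.liftAlgebra O ℂ
  have h1 : (algebraMap (FractionRing O) ℂ).comp (algebraMap O (FractionRing O)) = O.subtype := by
    have h2 : IsScalarTower O (FractionRing O) ℂ := FractionRing.isScalarTower_liftAlgebra O ℂ
    rw [← IsScalarTower.algebraMap_eq]
    rfl
  refine nullst (K := ℂ) (M := FractionRing O) H Q ?_
  rw [h1]
  exact h

variable {n : ℕ} (O : Subring ℂ)

theorem frobO_pow {k : Type} [Field k] {p : ℕ} (s : O →+* O) (φ : O →+* k)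
    (hφ : ∀ c, φ (s c) = φ c ^ p) (m : ℕ) (c : O) : φ ((s ^ m) c) = φ c ^ p ^ m := by
  induction m generalizing c with
  | zero => simp
  | succ m ih =>
    have h1 : (s ^ (m + 1)) c = (s ^ m) (s c) := by
      rw [pow_succ]
      rfl
    rw [h1, ih, hφ c, ← pow_mul, pow_succ, mul_comm]

theorem conjO_zero {k : Type} [Field k] {p : ℕ} [Fact p.Prime] [CharP k p] (s : O →+* O)
    (φ : O →+* k) (hφ : ∀ c, φ (s c) = φ c ^ p) (G : MvPolynomial (Fin n) O)
    (x : Fin n → ZMod p) (h0 : eval₂ φ (bar k x) G = 0) (m : ℕ) :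
    eval₂ φ (bar k x) (map (s ^ m) G) = 0 := by
  rw [eval₂_map]
  have h1 : φ.comp (s ^ m) = (iterateFrobenius k p m).comp φ := by
    ext c
    rw [RingHom.comp_apply, RingHom.comp_apply, frobO_pow O s φ hφ, iterateFrobenius_def]
  have h2 : bar k x = (iterateFrobenius k p m) ∘ (bar k x) := by
    funext i
    simp only [bar, Function.comp_apply]
    rw [iterateFrobenius_def, ← map_pow, ZMod.pow_card_pow]
  rw [h1, h2, ← eval₂_comp_left, h0, map_zero]

/-- The conjugates of `G` have no common zero. -/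
theorem movedO (s : O →+* O) (G : MvPolynomial (Fin n) O)
    (hG : ∀ x : Fin n → ℂ, (∀ m : ℕ, eval₂ O.subtype x (map (s ^ m) G) = 0) → x = 0) :
    ∃ b : O, b ≠ 0 ∧ ∀ (p : ℕ) [Fact p.Prime] (k : Type) [Field k] [CharP k p]
      (φ : O →+* k), (∀ c, φ (s c) = φ c ^ p) → φ b ≠ 0 → ∀ x : Fin n → ZMod p,
        eval₂ φ (bar k x) G = 0 → x = 0 := by
  have h1 : ∀ i : Fin n, ∃ (b : O) (e : ℕ), b ≠ 0 ∧
      C b * (X i) ^ e ∈ Ideal.span (Set.range fun m : ℕ => map (s ^ m) G) := by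
    intro i
    refine nullstO O _ _ fun x hx => ?_
    rw [eval₂_X, hG x hx]
    rfl
  choose b e hb hbe using h1
  refine ⟨∏ i, b i, Finset.prod_ne_zero_iff.2 fun i _ => hb i, ?_⟩
  intro p hp k _ _ φ hφ h2 x hx
  rw [map_prod, Finset.prod_ne_zero_iff] at h2
  funext i
  have h3 := span_zero φ (bar k x) _ (fun m => conjO_zero O s φ hφ G x hx m) (hbe i)
  rw [eval₂_mul, eval₂_C, eval₂_pow, eval₂_X, mul_eq_zero] at h3
  rcases h3 with h3 | h3
  · exact absurd h3 (h2 i (Finset.mem_univ i))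
  · rcases Nat.eq_zero_or_pos (e i) with h | h
    · rw [h, pow_zero] at h3
      exact absurd h3 one_ne_zero
    · exact bar_zero ((pow_eq_zero_iff h.ne').1 h3)

/-- Polynomials without common zeros but `0`. -/
theorem commonO {ι : Type} (F : ι → MvPolynomial (Fin n) O)
    (hF : ∀ x : Fin n → ℂ, (∀ i, eval₂ O.subtype x (F i) = 0) → x = 0) :
    ∃ b : O, b ≠ 0 ∧ ∀ (p : ℕ) [Fact p.Prime] (k : Type) [Field k] [CharP k p]
      (φ : O →+* k), φ b ≠ 0 → ∀ x : Fin n → ZMod p,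
        (∀ i, eval₂ φ (bar k x) (F i) = 0) → x = 0 := by
  have h1 : ∀ i : Fin n, ∃ (b : O) (e : ℕ), b ≠ 0 ∧ C b * (X i) ^ e ∈ Ideal.span (Set.range F) := by
    intro i
    refine nullstO O _ _ fun x hx => ?_
    rw [eval₂_X, hF x hx]
    rfl
  choose b e hb hbe using h1
  refine ⟨∏ i, b i, Finset.prod_ne_zero_iff.2 fun i _ => hb i, ?_⟩
  intro p hp k _ _ φ h2 x hx
  rw [map_prod, Finset.prod_ne_zero_iff] at h2
  funext i
  have h3 := span_zero φ (bar k x) _ hx (hbe i)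
  rw [eval₂_mul, eval₂_C, eval₂_pow, eval₂_X, mul_eq_zero] at h3
  rcases h3 with h3 | h3
  · exact absurd h3 (h2 i (Finset.mem_univ i))
  · rcases Nat.eq_zero_or_pos (e i) with h | h
    · rw [h, pow_zero] at h3
      exact absurd h3 one_ne_zero
    · exact bar_zero ((pow_eq_zero_iff h.ne').1 h3)

/-- The zeros of `J` but `0` are zeros of the `G a`. -/
theorem critO {ι : Type} [Fintype ι] (J : MvPolynomial (Fin n) O) (G : ι → MvPolynomial (Fin n) O)
    (hJ : ∀ x : Fin n → ℂ, x ≠ 0 → eval₂ O.subtype x J = 0 → ∃ a, eval₂ O.subtype x (G a) = 0) :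
    ∃ b : O, b ≠ 0 ∧ ∀ (p : ℕ) [Fact p.Prime] (k : Type) [Field k] [CharP k p]
      (φ : O →+* k), φ b ≠ 0 → ∀ x : Fin n → ZMod p, x ≠ 0 → eval₂ φ (bar k x) J = 0 →
        ∃ a, eval₂ φ (bar k x) (G a) = 0 := by
  have h1 : ∀ i : Fin n, ∃ (b : O) (e : ℕ), b ≠ 0 ∧
      C b * (X i * ∏ a, G a) ^ e ∈ Ideal.span (Set.range fun _ : Unit => J) := by
    intro i
    refine nullstO O _ _ fun x hx => ?_
    by_cases h0 : x = 0
    · rw [eval₂_mul, eval₂_X, h0, Pi.zero_apply, zero_mul]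
    · obtain ⟨a, ha⟩ := hJ x h0 (hx ())
      rw [eval₂_mul, eval₂_prod, Finset.prod_eq_zero (Finset.mem_univ a) ha, mul_zero]
  choose b e hb hbe using h1
  refine ⟨∏ i, b i, Finset.prod_ne_zero_iff.2 fun i _ => hb i, ?_⟩
  intro p hp k _ _ φ h2 x hx0 hx
  rw [map_prod, Finset.prod_ne_zero_iff] at h2
  obtain ⟨i, hi⟩ := Function.ne_iff.1 hx0
  have h3 := span_zero φ (bar k x) _ (fun _ => hx) (hbe i)
  rw [eval₂_mul, eval₂_C, eval₂_pow, mul_eq_zero] at h3
  rcases h3 with h3 | h3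
  · exact absurd h3 (h2 i (Finset.mem_univ i))
  · have h4 : eval₂ φ (bar k x) (X i * ∏ a, G a) = 0 := by
      rcases Nat.eq_zero_or_pos (e i) with h | h
      · rw [h, pow_zero] at h3
        exact absurd h3 one_ne_zero
      · exact (pow_eq_zero_iff h.ne').1 h3
    rw [eval₂_mul, eval₂_X, mul_eq_zero] at h4
    rcases h4 with h4 | h4
    · exact absurd (bar_zero h4) hi
    · rw [eval₂_prod, Finset.prod_eq_zero_iff] at h4
      obtain ⟨a, -, ha⟩ := h4
      exact ⟨a, ha⟩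

end Pool.Agent.U100.MQ
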