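import Pool.Agent.U100.MQ.Loc
import Pool.Agent.H298R2.Kuyk5
import Pool.Agent.H880R2.Hilb.E1

set_option autoImplicit false

/-! Frobenius elements for Galois extensions of `ℚ(t_1, …, t_r)`. -/

namespace Pool.Agent.U100.MQ

open NumberField
open Pool.Agent.W401.Cheb (HasFrob xp infinite_frob)

theorem exists_den {F' : Type} [Field F'] [NumberField F'] (x : F') :
    ∃ d : ℤ, d ≠ 0 ∧ IsIntegral ℤ (d • x) := by
  obtain ⟨m, hm, hint⟩ := IsAlgebraic.exists_integral_multiple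
    ((IsFractionRing.isAlgebraic_iff ℤ ℚ F').2 (Algebra.IsAlgebraic.isAlgebraic (R := ℚ) x))
  exact ⟨m, hm, hint⟩

theorem exists_frob_ring {r : ℕ} {Q E : Type} [Field Q] [Algebra (MvPolynomial (Fin r) ℚ) Q]
    [IsFractionRing (MvPolynomial (Fin r) ℚ) Q] [Field E] [Algebra Q E]
    [Algebra (MvPolynomial (Fin r) ℚ) E] [IsScalarTower (MvPolynomial (Fin r) ℚ) Q E]
    [FiniteDimensional Q E] [IsGalois Q E] (γ : E ≃ₐ[Q] E) (W : Finset E) (D : ℕ) :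
    ∃ (p : ℕ) (_ : Fact p.Prime), D < p ∧ ∃ (R : Subring E)
      (φ : R →+* AlgebraicClosure (ZMod p)),
      (W : Set E) ⊆ R ∧ ∀ (c : E) (hc : c ∈ R), ∃ h : γ c ∈ R, φ ⟨γ c, h⟩ = φ ⟨c, hc⟩ ^ p := by
  classical
  obtain ⟨a, -, F', i1, i2, hfd, hgal, ψ, B, hR, hB, Φ, hW, -, hΦψ⟩ :=
    Pool.Agent.H298R2.Kuyk.spec_mv (K := ℚ) (ι := Fin r) (Q := Q) (E := E)
      Pool.Agent.H880R2.Hilb.taskE1 W (1 : MvPolynomial (Fin r) ℚ) one_ne_zero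
  have hcz : CharZero F' := charZero_of_injective_algebraMap (algebraMap ℚ F').injective
  obtain rfl : i2 = DivisionRing.toRatAlgebra := Subsingleton.elim _ _
  have : NumberField F' := { to_charZero := hcz, to_finiteDimensional := hfd }
  choose d hd0 hdi using fun x : F' => exists_den x
  obtain ⟨p, ⟨hpp, hxp⟩, hDp⟩ := (infinite_frob F' (ψ γ)).exists_gt
    (D + ∑ w : W, (d (Φ ⟨w.1, hW w.2⟩)).natAbs)
  have hp : Fact p.Prime := ⟨hpp⟩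
  obtain ⟨φ, hφ⟩ : ∃ φ : 𝓞 F' →+* AlgebraicClosure (ZMod p), HasFrob p φ (ψ γ) := by
    unfold xp at hxp
    rw [dif_pos hpp] at hxp
    have h1 := (Nat.card_ne_zero.1 hxp).1
    exact ⟨h1.some.1, h1.some.2⟩
  obtain ⟨V, χ, hV, hχ⟩ := local_ext (ψ γ) φ hφ
  have hinj : Function.Injective B.subtype := Subtype.val_injective
  let e := Subring.equivMapOfInjective (V.comap Φ) B.subtype hinj
  let f : V.comap Φ →+* V := Φ.restrict (V.comap Φ) V (fun x hx => hx)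
  let ξ : Subring.map B.subtype (V.comap Φ) →+* AlgebraicClosure (ZMod p) :=
    (χ.comp f).comp e.symm.toRingHom
  have hξ : ∀ z, ξ z = χ (f (e.symm z)) := fun _ => rfl
  refine ⟨p, hp, by omega, Subring.map B.subtype (V.comap Φ), ξ, ?_, ?_⟩
  · intro w hw
    refine ⟨⟨w, hW hw⟩, ?_, rfl⟩
    show Φ ⟨w, hW hw⟩ ∈ V
    refine hV _ ((d (Φ ⟨w, hW hw⟩) : ℤ) : 𝓞 F') ?_ ?_
    · intro h0
      rw [map_intCast, CharP.intCast_eq_zero_iff (AlgebraicClosure (ZMod p)) p] at h0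
      have h1 : p ∣ (d (Φ ⟨w, hW hw⟩)).natAbs := Int.natCast_dvd.1 h0
      have h2 := Nat.le_of_dvd (Int.natAbs_pos.2 (hd0 _)) h1
      have h3 : (d (Φ ⟨w, hW hw⟩)).natAbs ≤ ∑ w : W, (d (Φ ⟨w.1, hW w.2⟩)).natAbs :=
        Finset.single_le_sum (f := fun w : W => (d (Φ ⟨w.1, hW w.2⟩)).natAbs)
          (fun _ _ => Nat.zero_le _) (Finset.mem_univ (⟨w, hw⟩ : W))
      omega
    · have h1 := hdi (Φ ⟨w, hW hw⟩)
      rw [zsmul_eq_mul] at h1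
      rw [map_intCast]
      exact h1
  · rintro _ ⟨c, hc, rfl⟩
    have hc' : Φ c ∈ V := hc
    obtain ⟨h1, h2⟩ := hχ (Φ c) hc'
    have h3 : Φ ⟨γ c, hB γ c⟩ ∈ V := by
      rw [hΦψ]
      exact h1
    refine ⟨⟨⟨γ c, hB γ c⟩, h3, rfl⟩, ?_⟩
    have h4 : e.symm ⟨γ c, ⟨⟨γ c, hB γ c⟩, h3, rfl⟩⟩ = ⟨⟨γ c, hB γ c⟩, h3⟩ := by
      rw [RingEquiv.symm_apply_eq]
      rfl
    have h5 : e.symm ⟨B.subtype c, ⟨c, hc, rfl⟩⟩ = ⟨c, hc⟩ := by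
      rw [RingEquiv.symm_apply_eq]
      rfl
    have h8 : f ⟨⟨γ c, hB γ c⟩, h3⟩ = ⟨ψ γ (Φ c), h1⟩ := Subtype.ext (hΦψ γ c)
    have h9 : f ⟨c, hc⟩ = ⟨Φ c, hc'⟩ := rfl
    have h10 : ξ ⟨γ c, ⟨⟨γ c, hB γ c⟩, h3, rfl⟩⟩ = χ ⟨ψ γ (Φ c), h1⟩ := by
      rw [hξ, h4, h8]
    have h11 : ξ ⟨B.subtype c, ⟨c, hc, rfl⟩⟩ = χ ⟨Φ c, hc'⟩ := by
      rw [hξ, h5, h9]
    exact h10.trans (h2.trans (congrArg (· ^ p) h11.symm))

end Pool.Agent.U100.MQ
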