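import Pool.Agent.U100.MQ.Pres
import Pool.Agent.U100.MQ.Spec

set_option autoImplicit false

/-! Frobenius elements for finitely generated subrings of `ℂ`. -/

namespace Pool.Agent.U100.MQ

open Pool.Agent.H927R2.RD

/-- the polynomial with the conjugates of `w` as zeros -/
theorem orbit_poly (σ : ℂ ≃+* ℂ) (w : ℂ) (m : ℕ) (hm : 0 < m) (hw : σ^[m] w = w) :
    ∃ P : Polynomial ℂ, P.Monic ∧ P.eval w = 0 ∧ ∀ i, σ (P.coeff i) = P.coeff i := by
  obtain ⟨m, rfl⟩ : ∃ m', m = m' + 1 := ⟨m - 1, by omega⟩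
  set f : ℕ → Polynomial ℂ := fun j => Polynomial.X - Polynomial.C (σ^[j] w) with hf
  refine ⟨∏ j ∈ Finset.range (m + 1), f j,
    Polynomial.monic_prod_of_monic _ _ (fun j _ => Polynomial.monic_X_sub_C _), ?_, ?_⟩
  · rw [Polynomial.eval_prod]
    apply Finset.prod_eq_zero (i := 0) (by simp)
    simp [hf]
  · intro i
    have h : (∏ j ∈ Finset.range (m + 1), f j).map (σ : ℂ →+* ℂ) =
        ∏ j ∈ Finset.range (m + 1), f j := by
      rw [Polynomial.map_prod]
      have hfj : ∀ j, (f j).map (σ : ℂ →+* ℂ) = f (j + 1) := by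
        intro j
        simp [hf, Function.iterate_succ_apply']
      simp_rw [hfj]
      rw [Finset.prod_range_succ, Finset.prod_range_succ' f]
      have h1 : f (m + 1) = f 0 := by
        simp only [hf]
        rw [hw]
        rfl
      rw [h1]
    have h2 := congrArg (fun P => P.coeff i) h
    simpa using h2

theorem int_trans (K : IntermediateField ℚ ℂ) (θ : ℂ) (hθ : IsIntegral K θ) (P : Polynomial ℂ)
    (hP : P.Monic) (w : ℂ) (hw : P.eval w = 0)
    (hc : ∀ i, P.coeff i ∈ IntermediateField.adjoin K {θ}) : IsIntegral K w := by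
  have halg : Algebra.IsAlgebraic K (IntermediateField.adjoin K {θ}) :=
    IntermediateField.isAlgebraic_adjoin_simple hθ
  have h1 : P ∈ Polynomial.lifts (algebraMap (IntermediateField.adjoin K {θ}) ℂ) := by
    rw [Polynomial.lifts_iff_coeff_lifts]
    intro i
    exact ⟨⟨_, hc i⟩, rfl⟩
  obtain ⟨q, hq, -, hqm⟩ := Polynomial.lifts_and_natDegree_eq_and_monic h1 hP
  have h2 : IsIntegral (IntermediateField.adjoin K {θ}) w := by
    refine ⟨q, hqm, ?_⟩
    rw [Polynomial.eval₂_eq_eval_map, hq, hw]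
  exact isIntegral_trans w h2

theorem partE (σ : ℂ ≃+* ℂ) {r : ℕ} {t : Fin r → ℂ} (ht : AlgebraicIndependent ℚ t)
    (htσ : ∀ i, σ (t i) = t i) (G0 : Finset ℂ)
    (hG : ∀ x ∈ G0, IsIntegral (IntermediateField.adjoin ℚ (Set.range t)) x)
    (hσ : ∀ c : Subring.closure (G0 : Set ℂ), σ c ∈ Subring.closure (G0 : Set ℂ))
    (b : Subring.closure (G0 : Set ℂ)) (hb : b ≠ 0) (D : ℕ) :
    ∃ (p : ℕ) (_ : Fact p.Prime), D < p ∧
      ∃ φ : Subring.closure (G0 : Set ℂ) →+* AlgebraicClosure (ZMod p), φ b ≠ 0 ∧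
        ∀ c : Subring.closure (G0 : Set ℂ), φ ⟨σ c, hσ c⟩ = φ c ^ p := by
  classical
  set K := IntermediateField.adjoin ℚ (Set.range t) with hK
  obtain ⟨E, hfd, hgal, hE⟩ := Pool.Agent.H298R2.Kuyk.exists_galois (Q := K) (F := ℂ)
    (G0 : Set ℂ) G0.finite_toSet hG
  let σ' : ℂ ≃ₐ[K] ℂ := AlgEquiv.ofRingEquiv (f := σ) (fun x => adjoin_fixed σ t htσ x x.2)
  let γ : E ≃ₐ[K] E := σ'.restrictNormal E
  have hγ : ∀ c : E, ((γ c : E) : ℂ) = σ c := fun c => AlgEquiv.restrictNormal_commutes σ' E c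
  let f0 : MvPolynomial (Fin r) ℚ →+* K := MvPolynomial.eval₂Hom (algebraMap ℚ K)
    (fun i => (⟨t i, IntermediateField.subset_adjoin ℚ _ ⟨i, rfl⟩⟩ : K))
  have hf0 : ∀ P, ((f0 P : K) : ℂ) = MvPolynomial.aeval t P := by
    intro P
    have h1 : (algebraMap K ℂ).comp f0 =
        (MvPolynomial.aeval t : MvPolynomial (Fin r) ℚ →ₐ[ℚ] ℂ).toRingHom := by
      apply MvPolynomial.ringHom_ext
      · intro a
        have h2 : f0 (MvPolynomial.C a) = algebraMap ℚ K a := MvPolynomial.eval₂Hom_C _ _ _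
        have h3 : (MvPolynomial.aeval t : MvPolynomial (Fin r) ℚ →ₐ[ℚ] ℂ).toRingHom
            (MvPolynomial.C a) = algebraMap ℚ ℂ a := MvPolynomial.aeval_C _ _
        rw [RingHom.comp_apply, h2, h3]
        rfl
      · intro i
        have h2 : f0 (MvPolynomial.X i) =
            (⟨t i, IntermediateField.subset_adjoin ℚ _ ⟨i, rfl⟩⟩ : K) :=
          MvPolynomial.eval₂Hom_X' _ _ _
        have h3 : (MvPolynomial.aeval t : MvPolynomial (Fin r) ℚ →ₐ[ℚ] ℂ).toRingHom
            (MvPolynomial.X i) = t i := MvPolynomial.aeval_X _ _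
        rw [RingHom.comp_apply, h2, h3]
        rfl
    exact congrArg (fun f : MvPolynomial (Fin r) ℚ →+* ℂ => f P) h1
  let _ : Algebra (MvPolynomial (Fin r) ℚ) K := f0.toAlgebra
  have hinj : Function.Injective (algebraMap (MvPolynomial (Fin r) ℚ) K) := by
    intro x y hxy
    apply ht
    rw [← hf0, ← hf0]
    exact congrArg _ hxy
  have hfs : FaithfulSMul (MvPolynomial (Fin r) ℚ) K :=
    (faithfulSMul_iff_algebraMap_injective _ _).mpr hinj
  have hfr : IsFractionRing (MvPolynomial (Fin r) ℚ) K := by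
    refine IsFractionRing.of_field _ _ fun z => ?_
    obtain ⟨x, y, h⟩ := (IntermediateField.mem_adjoin_range_iff ℚ t (z : ℂ)).mp z.2
    refine ⟨x, y, ?_⟩
    apply Subtype.ext
    have e : ((f0 x / f0 y : K) : ℂ) = ((f0 x : K) : ℂ) / ((f0 y : K) : ℂ) := rfl
    rw [h, ← hf0, ← hf0, ← e]
    rfl
  let _ : Algebra (MvPolynomial (Fin r) ℚ) E := ((algebraMap K E).comp f0).toAlgebra
  have hst : IsScalarTower (MvPolynomial (Fin r) ℚ) K E := IsScalarTower.of_algebraMap_eq fun _ => rfl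
  have hOE : ∀ c ∈ Subring.closure (G0 : Set ℂ), c ∈ E := by
    have h1 : Subring.closure (G0 : Set ℂ) ≤ E.toSubfield.toSubring := by
      rw [Subring.closure_le]
      intro x hx
      exact hE hx
    exact fun c hc => h1 hc
  let j : Subring.closure (G0 : Set ℂ) →+* E :=
    (Subring.closure (G0 : Set ℂ)).subtype.codRestrict E (fun c => hOE c c.2)
  have hj : ∀ c, ((j c : E) : ℂ) = c := fun c => rfl
  obtain ⟨p, hp, hDp, R, φ, hWR, hφ⟩ := exists_frob_ring (r := r) (Q := K) (E := E) γ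
    (G0.attach.image (fun x : {x // x ∈ G0} => (⟨x.1, hE x.2⟩ : E)) ∪ {(j b)⁻¹}) D
  have hjR : ∀ c, j c ∈ R := by
    intro c
    have h1 : Subring.closure (G0 : Set ℂ) ≤ R.map (algebraMap E ℂ) := by
      rw [Subring.closure_le]
      intro x hx
      refine ⟨⟨x, hE hx⟩, hWR ?_, rfl⟩
      rw [Finset.mem_coe, Finset.mem_union, Finset.mem_image]
      exact Or.inl ⟨⟨x, hx⟩, Finset.mem_attach _ _, rfl⟩
    obtain ⟨x, hx, hxc⟩ := h1 c.2
    have h2 : x = j c := (algebraMap E ℂ).injective hxc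
    rw [← h2]
    exact hx
  refine ⟨p, hp, hDp, φ.comp (j.codRestrict R hjR), ?_, ?_⟩
  · intro h0
    have hbi : (j b)⁻¹ ∈ R := hWR (by
      rw [Finset.mem_coe, Finset.mem_union]
      exact Or.inr (Finset.mem_singleton_self _))
    have hjb : j b ≠ 0 := by
      intro h1
      apply hb
      apply Subtype.ext
      exact congrArg (algebraMap E ℂ) h1
    have h2 : (⟨j b, hjR b⟩ : R) * ⟨(j b)⁻¹, hbi⟩ = 1 := Subtype.ext (mul_inv_cancel₀ hjb)
    have h3 := congrArg φ h2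
    rw [map_mul, map_one] at h3
    have h4 : φ ⟨j b, hjR b⟩ = 0 := h0
    rw [h4, zero_mul] at h3
    exact zero_ne_one h3
  · intro c
    obtain ⟨h1, h2⟩ := hφ (j c) (hjR c)
    have h3 : γ (j c) = j ⟨σ c, hσ c⟩ := by
      apply Subtype.ext
      exact hγ (j c)
    have h4 : (φ.comp (j.codRestrict R hjR)) ⟨σ c, hσ c⟩ = φ ⟨j ⟨σ c, hσ c⟩, hjR _⟩ := rfl
    rw [h4]
    have h5 : (⟨j ⟨σ c, hσ c⟩, hjR _⟩ : R) = ⟨γ (j c), h1⟩ := Subtype.ext h3.symm
    rw [h5, h2]
    rfl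

end Pool.Agent.U100.MQ
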