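import Pool.Agent.H927R2.RD.T14

set_option autoImplicit false

/-! Presentation of a finitely generated subfield of `ℂ` with all data fixed by the automorphisms
which fix the generators (after `Pool.Agent.H927R2.RD.T14`). -/

namespace Pool.Agent.U100.MQ

open Polynomial
open Pool.Agent.H927R2.RD

/-- the elements fixed by a ring automorphism -/
def fixedSub (σ : ℂ ≃+* ℂ) : Subfield ℂ where
  carrier := {x | σ x = x}
  mul_mem' := by
    intro a b ha hb
    show σ (a * b) = a * b
    rw [map_mul, show σ a = a from ha, show σ b = b from hb]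
  one_mem' := map_one σ
  add_mem' := by
    intro a b ha hb
    show σ (a + b) = a + b
    rw [map_add, show σ a = a from ha, show σ b = b from hb]
  zero_mem' := map_zero σ
  neg_mem' := by
    intro a ha
    show σ (-a) = -a
    rw [map_neg, show σ a = a from ha]
  inv_mem' := by
    intro a ha
    show σ (a⁻¹) = a⁻¹
    rw [map_inv₀, show σ a = a from ha]

theorem adjoin_fixed (σ : ℂ ≃+* ℂ) {r : ℕ} (t : Fin r → ℂ) (ht : ∀ i, σ (t i) = t i) (x : ℂ)
    (hx : x ∈ IntermediateField.adjoin ℚ (Set.range t)) : σ x = x := by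
  have h1 : Subfield.closure (Set.range (algebraMap ℚ ℂ) ∪ Set.range t) ≤ fixedSub σ := by
    rw [Subfield.closure_le]
    rintro y (⟨q, rfl⟩ | ⟨i, rfl⟩)
    · show σ ((q : ℚ) : ℂ) = _
      rw [map_ratCast]
      rfl
    · exact ht i
  exact h1 hx

theorem adjoin_fixed' (σ : ℂ ≃+* ℂ) {r : ℕ} (t : Fin r → ℂ) (ht : ∀ i, σ (t i) = t i) (S : Set ℂ)
    (hS : ∀ x ∈ S, σ x = x) (x : ℂ)
    (hx : x ∈ IntermediateField.adjoin (IntermediateField.adjoin ℚ (Set.range t)) S) :
    σ x = x := by
  have h1 : Subfield.closure (Set.range (algebraMap (IntermediateField.adjoin ℚ (Set.range t)) ℂ) ∪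
      S) ≤ fixedSub σ := by
    rw [Subfield.closure_le]
    rintro y (⟨q, rfl⟩ | hy)
    · exact adjoin_fixed σ t ht _ q.2
    · exact hS y hy
  exact h1 hx

theorem exists_pres (s : Finset ℂ) :
    ∃ (r : ℕ) (t : Fin r → ℂ) (θ : ℂ) (P u v : Polynomial (MvPolynomial (Fin r) ℤ))
      (g h : MvPolynomial (Fin r) ℤ), AlgebraicIndependent ℚ t ∧ g ≠ 0 ∧ h ≠ 0 ∧
      IsIntegral (IntermediateField.adjoin ℚ (Set.range t)) θ ∧
      P.map (toAdj t) = Polynomial.C (toAdj t g) *
        minpoly (IntermediateField.adjoin ℚ (Set.range t)) θ ∧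
      u * P + v * Polynomial.derivative P = Polynomial.C h ∧
      (∀ x ∈ s, x ∈ IntermediateField.adjoin (IntermediateField.adjoin ℚ (Set.range t)) {θ}) ∧
      (∀ i, t i ∈ s) ∧
      θ ∈ IntermediateField.adjoin (IntermediateField.adjoin ℚ (Set.range t)) (s : Set ℂ) := by
  obtain ⟨B, hB⟩ := (AlgebraicIndependent.matroid ℚ ℂ).exists_isBasis (s : Set ℂ)
  rw [AlgebraicIndependent.matroid_isBasis_iff] at hB
  obtain ⟨hB1, hB2, hB3⟩ := hB
  have hfin : B.Finite := s.finite_toSet.subset hB2
  haveI : Fintype B := hfin.fintype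
  set r := Fintype.card B with hr
  let e : Fin r ≃ B := (Fintype.equivFin B).symm
  let t : Fin r → ℂ := fun i => (e i : ℂ)
  have ht : AlgebraicIndependent ℚ t := by
    have := AlgebraicIndependent.comp hB1 e e.injective
    exact this
  have hrange : Set.range t = B := by
    ext x
    constructor
    · rintro ⟨i, rfl⟩
      exact (e i).2
    · intro hx
      exact ⟨e.symm ⟨x, hx⟩, by simp [t]⟩
  set F := IntermediateField.adjoin ℚ (Set.range t) with hF
  have hint : ∀ x ∈ (s : Set ℂ), IsIntegral F x := by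
    intro x hx
    have h1 := hB3 x hx
    rw [← hrange] at h1
    have h2 : IsAlgebraic F x := by
      obtain ⟨p, hp0, hp⟩ := h1
      let φ : Algebra.adjoin ℚ (Set.range t) →+* F :=
        (Subalgebra.inclusion (IntermediateField.algebra_adjoin_le_adjoin ℚ (Set.range t))).toRingHom
      have hφ : Function.Injective φ := Subalgebra.inclusion_injective _
      refine ⟨p.map φ, ?_, ?_⟩
      · rwa [Ne, Polynomial.map_eq_zero_iff hφ]
      · rw [Polynomial.aeval_def, Polynomial.eval₂_map]
        rw [Polynomial.aeval_def] at hp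
        exact hp
    exact h2.isIntegral
  haveI : FiniteDimensional F (IntermediateField.adjoin F (s : Set ℂ)) :=
    IntermediateField.finiteDimensional_adjoin hint
  obtain ⟨α, hα⟩ := Field.exists_primitive_element F (IntermediateField.adjoin F (s : Set ℂ))
  let θ : ℂ := (α : ℂ)
  have hθ : IntermediateField.adjoin F {θ} = IntermediateField.adjoin F (s : Set ℂ) := by
    have := congr_arg IntermediateField.lift hα
    rw [IntermediateField.lift_adjoin_simple, IntermediateField.lift_top] at this
    exact this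
  have hθint : IsIntegral F θ := by
    have h1 : IsIntegral F α := Algebra.IsIntegral.isIntegral α
    exact h1.map (IntermediateField.adjoin F (s : Set ℂ)).val
  letI : Algebra (MvPolynomial (Fin r) ℤ) F := (toAdj t).toAlgebra
  have halg : algebraMap (MvPolynomial (Fin r) ℤ) F = toAdj t := rfl
  have hinj : Function.Injective (algebraMap (MvPolynomial (Fin r) ℤ) F) :=
    T14.toAdj_injective t ht
  haveI : FaithfulSMul (MvPolynomial (Fin r) ℤ) F :=
    (faithfulSMul_iff_algebraMap_injective _ _).mpr hinj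
  haveI : IsFractionRing (MvPolynomial (Fin r) ℤ) F :=
    IsFractionRing.of_field _ _ (T14.toAdj_surj t)
  have hnorm : ∀ q : Polynomial F, ∃ (b : MvPolynomial (Fin r) ℤ)
      (q' : Polynomial (MvPolynomial (Fin r) ℤ)), b ≠ 0 ∧
      q'.map (toAdj t) = Polynomial.C (toAdj t b) * q := by
    intro q
    obtain ⟨b, hb, h⟩ := IsLocalization.integerNormalization_spec
      (nonZeroDivisors (MvPolynomial (Fin r) ℤ)) q
    refine ⟨b, _, mem_nonZeroDivisors_iff_ne_zero.mp hb, h.trans ?_⟩
    rw [Algebra.smul_def]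
    rfl
  have hsep : IsCoprime (minpoly F θ) (derivative (minpoly F θ)) :=
    (minpoly.irreducible hθint).separable
  obtain ⟨A, A', hAA⟩ := hsep
  obtain ⟨g, P, hg, hP⟩ := hnorm (minpoly F θ)
  have hg' : toAdj t g ≠ 0 := by
    intro h0
    exact hg (hinj (by rw [halg, h0, map_zero]))
  obtain ⟨a, u₀, ha, hu₀⟩ := hnorm (A * Polynomial.C (toAdj t g)⁻¹)
  obtain ⟨b, v₀, hb, hv₀⟩ := hnorm (A' * Polynomial.C (toAdj t g)⁻¹)
  refine ⟨r, t, θ, P, Polynomial.C b * u₀, Polynomial.C a * v₀, g, a * b, ht, hg,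
    mul_ne_zero ha hb, hθint, hP, ?_, ?_, ?_, ?_⟩
  · apply Polynomial.map_injective (toAdj t) hinj
    rw [Polynomial.map_add, Polynomial.map_mul, Polynomial.map_mul, Polynomial.map_mul,
      Polynomial.map_mul, Polynomial.map_C, Polynomial.map_C, Polynomial.map_C,
      ← Polynomial.derivative_map, hu₀, hv₀, hP, Polynomial.derivative_mul,
      Polynomial.derivative_C, zero_mul, zero_add, map_mul, map_mul]
    have hc : (Polynomial.C (toAdj t g)⁻¹ : Polynomial F) * Polynomial.C (toAdj t g) = 1 := by
      rw [← map_mul, inv_mul_cancel₀ hg', map_one]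
    linear_combination (Polynomial.C (toAdj t a) * Polynomial.C (toAdj t b)) * hAA +
      (Polynomial.C (toAdj t a) * Polynomial.C (toAdj t b)) *
        (A * minpoly F θ + A' * derivative (minpoly F θ)) * hc
  · intro x hx
    rw [hθ]
    exact IntermediateField.subset_adjoin F _ hx
  · intro i
    exact hB2 (e i).2
  · exact α.2

end Pool.Agent.U100.MQ
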