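import Pool.Agent.U100.MQ.PartE
import Pool.Agent.U100.MQ.CoreEmb
import Pool.Agent.U100.MR.Alg

set_option autoImplicit false

/-! Reduction and `p`-adic embedding of a finitely generated ring with an automorphism acting as
Frobenius. -/

namespace Pool.Agent.U100.MQ

open Pool.Agent.H927R2.RD
open Pool.Agent.H936R2
open Pool.Agent.U100.MR (mem_prime_field)

theorem exists_denom {s : Finset ℂ} {r : ℕ} {t : Fin r → ℂ} (ht : AlgebraicIndependent ℚ t) {θ : ℂ}
    (hθ : IsIntegral (IntermediateField.adjoin ℚ (Set.range t)) θ)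
    (hs : ∀ x ∈ s, x ∈ IntermediateField.adjoin (IntermediateField.adjoin ℚ (Set.range t)) {θ}) :
    ∃ (q : MvPolynomial (Fin r) ℤ) (Qx : ℂ → Polynomial (MvPolynomial (Fin r) ℤ)), q ≠ 0 ∧
      ∀ x ∈ s, ((toAdj t q : IntermediateField.adjoin ℚ (Set.range t)) : ℂ) * x =
        Polynomial.aeval θ ((Qx x).map (toAdj t)) := by
  classical
  choose! bb QQ hb0 hbQ using fun (x : ℂ) (hx : x ∈ s) => Pool.Agent.U100.KC.rep ht hθ x (hs x hx)
  refine ⟨∏ x ∈ s, bb x, fun x => Polynomial.C (∏ y ∈ s.erase x, bb y) * QQ x,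
    Finset.prod_ne_zero_iff.2 fun x hx => hb0 x hx, ?_⟩
  intro x hx
  rw [← Finset.prod_erase_mul s bb hx, map_mul, Polynomial.map_mul, map_mul,
    Polynomial.map_C, Polynomial.aeval_C, ← hbQ x hx]
  have e1 : (((toAdj t (∏ y ∈ s.erase x, bb y)) * toAdj t (bb x) :
      IntermediateField.adjoin ℚ (Set.range t)) : ℂ) =
      ((toAdj t (∏ y ∈ s.erase x, bb y) : IntermediateField.adjoin ℚ (Set.range t)) : ℂ) *
      ((toAdj t (bb x) : IntermediateField.adjoin ℚ (Set.range t)) : ℂ) := rfl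
  rw [e1, mul_assoc]
  rfl

/-- evaluation at `t`, `θ` in a subring of `ℂ` -/
noncomputable def evO {r : ℕ} (O : Subring ℂ) (tO : Fin r → O) (θO : O) :
    Polynomial (MvPolynomial (Fin r) ℤ) →+* O :=
  Polynomial.eval₂RingHom (MvPolynomial.eval₂Hom (Int.castRingHom O) tO) θO

theorem evO_coe {r : ℕ} (O : Subring ℂ) (t : Fin r → ℂ) (θ : ℂ) (tO : Fin r → O) (θO : O)
    (h1 : ∀ i, (tO i : ℂ) = t i) (h2 : (θO : ℂ) = θ) (Q : Polynomial (MvPolynomial (Fin r) ℤ)) :
    ((evO O tO θO Q : O) : ℂ) = Polynomial.aeval θ (Q.map (toAdj t)) := by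
  have h : O.subtype.comp (evO O tO θO) =
      ((Polynomial.aeval (R := IntermediateField.adjoin ℚ (Set.range t)) θ :
        Polynomial (IntermediateField.adjoin ℚ (Set.range t)) →ₐ[_] ℂ) : _ →+* ℂ).comp
        (Polynomial.mapRingHom (toAdj t)) := by
    apply Polynomial.ringHom_ext'
    · apply MvPolynomial.ringHom_ext
      · intro n
        simp [evO, toAdj]
      · intro i
        simp [evO, toAdj, h1]
    · simp [evO, h2]
  exact congrArg (fun f : Polynomial (MvPolynomial (Fin r) ℤ) →+* ℂ => f Q) h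

theorem evO_red {r p : ℕ} [Fact p.Prime] (O : Subring ℂ) (tO : Fin r → O) (θO : O)
    (φ : O →+* AlgebraicClosure (ZMod p)) (a : Fin r → ℤ) (b : ℤ)
    (h1 : ∀ i, φ (tO i) = (a i : AlgebraicClosure (ZMod p)))
    (h2 : φ θO = (b : AlgebraicClosure (ZMod p))) (Q : Polynomial (MvPolynomial (Fin r) ℤ)) :
    φ (evO O tO θO Q) = (((Q.map (MvPolynomial.eval a)).eval b : ℤ) :
      AlgebraicClosure (ZMod p)) := by
  have h : φ.comp (evO O tO θO) = ((Int.castRingHom (AlgebraicClosure (ZMod p))).comp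
      (Polynomial.evalRingHom b)).comp (Polynomial.mapRingHom (MvPolynomial.eval a)) := by
    apply Polynomial.ringHom_ext'
    · apply MvPolynomial.ringHom_ext
      · intro n
        simp [evO]
      · intro i
        simp [evO, h1]
    · simp [evO, h2]
  exact congrArg (fun f : Polynomial (MvPolynomial (Fin r) ℤ) →+* AlgebraicClosure (ZMod p) => f Q) h

theorem eval_conj (σ : ℂ ≃+* ℂ) (P : Polynomial ℂ) (hP : ∀ i, σ (P.coeff i) = P.coeff i) (x : ℂ)
    (hx : P.eval x = 0) : P.eval (σ x) = 0 := by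
  have h1 : P.map (σ : ℂ →+* ℂ) = P := by
    ext i
    rw [Polynomial.coeff_map]
    exact hP i
  have h2 : (P.map (σ : ℂ →+* ℂ)).eval ((σ : ℂ →+* ℂ) x) = (σ : ℂ →+* ℂ) (P.eval x) :=
    Polynomial.eval_map_apply _ _
  rw [h1, hx, map_zero] at h2
  exact h2

theorem thmA (σ : ℂ ≃+* ℂ) (C W : Finset ℂ) (hC : ∀ c ∈ C, σ c = c)
    (hW : ∀ w ∈ W, ∃ m, 0 < m ∧ σ^[m] w = w) :
    ∃ O : Subring ℂ, (C : Set ℂ) ⊆ O ∧ (W : Set ℂ) ⊆ O ∧ ∃ hσ : ∀ c : O, σ c ∈ O,
      ∀ b : O, b ≠ 0 → ∀ D : ℕ, ∃ (p : ℕ) (_ : Fact p.Prime), D < p ∧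
        ∃ φ : O →+* AlgebraicClosure (ZMod p), φ b ≠ 0 ∧
          (∀ c : O, φ ⟨σ c, hσ c⟩ = φ c ^ p) ∧
          ∃ τ : ℂ →+* PadicAlgCl p, ∀ c : O, (c : ℂ) ∈ C → ∃ y : ℤ_[p],
            τ c = algebraMap ℚ_[p] (PadicAlgCl p) (y : ℚ_[p]) ∧
            φ c = ZMod.castHom (dvd_refl p) (AlgebraicClosure (ZMod p)) (PadicInt.toZMod y) := by
  classical
  choose! m hm0 hm using hW
  have horb : ∀ w ∈ W, ∃ P : Polynomial ℂ, P.Monic ∧ P.eval w = 0 ∧
      ∀ i, σ (P.coeff i) = P.coeff i :=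
    fun w hw => orbit_poly σ w (m w) (hm0 w hw) (hm w hw)
  choose! PP hPm hP0 hPσ using horb
  set C' : Finset ℂ := C ∪ W.biUnion (fun w => (PP w).coeffs) with hC'
  have hC'σ : ∀ c ∈ C', σ c = c := by
    intro c hc
    rw [hC', Finset.mem_union, Finset.mem_biUnion] at hc
    rcases hc with hc | ⟨w, hw, hc⟩
    · exact hC c hc
    · obtain ⟨i, -, rfl⟩ := Polynomial.mem_coeffs_iff.1 hc
      exact hPσ w hw i
  obtain ⟨r, t, θ, P, u, v, g, h, ht, hg, hh, hθ, hP, hbez, hs, htC, hθC⟩ := exists_pres C'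
  have htσ : ∀ i, σ (t i) = t i := fun i => hC'σ _ (htC i)
  have hθσ : σ θ = θ := adjoin_fixed' σ t htσ _ hC'σ θ hθC
  obtain ⟨q, Qx, hq0, hq⟩ := exists_denom ht hθ hs
  -- the ring
  set G0 : Finset ℂ := C' ∪ {θ} ∪
    W.biUnion (fun w => (Finset.range (m w)).image fun j => σ^[j] w) with hG0
  have hintE : ∀ x ∈ IntermediateField.adjoin (IntermediateField.adjoin ℚ (Set.range t)) {θ},
      IsIntegral (IntermediateField.adjoin ℚ (Set.range t)) x := by
    have halg := IntermediateField.isAlgebraic_adjoin_simple hθ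
    intro x hx
    exact (Algebra.IsIntegral.isIntegral (R := IntermediateField.adjoin ℚ (Set.range t))
      (⟨x, hx⟩ : IntermediateField.adjoin (IntermediateField.adjoin ℚ (Set.range t)) {θ})).map
      (IntermediateField.adjoin (IntermediateField.adjoin ℚ (Set.range t)) {θ}).val
  have hGint : ∀ x ∈ G0, IsIntegral (IntermediateField.adjoin ℚ (Set.range t)) x := by
    intro x hx
    rw [hG0, Finset.mem_union, Finset.mem_union, Finset.mem_biUnion] at hx
    rcases hx with (hx | hx) | ⟨w, hw, hx⟩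
    · exact hintE x (hs x hx)
    · rw [Finset.mem_singleton] at hx
      rw [hx]
      exact hθ
    · obtain ⟨j, -, rfl⟩ := Finset.mem_image.1 hx
      refine int_trans _ θ hθ (PP w) (hPm w hw) _ ?_ ?_
      · clear hx
        induction j with
        | zero => exact hP0 w hw
        | succ j ih =>
          rw [Function.iterate_succ_apply']
          exact eval_conj σ _ (hPσ w hw) _ ih
      · intro i
        by_cases h0 : (PP w).coeff i = 0
        · rw [h0]
          exact zero_mem _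
        · exact hs _ (Finset.mem_union_right _ (Finset.mem_biUnion.2 ⟨w, hw,
            Polynomial.mem_coeffs_iff.2 ⟨i, Polynomial.mem_support_iff.2 h0, rfl⟩⟩))
  have hσ : ∀ c : Subring.closure (G0 : Set ℂ), σ c ∈ Subring.closure (G0 : Set ℂ) := by
    have h1 : Subring.closure (G0 : Set ℂ) ≤
        (Subring.closure (G0 : Set ℂ)).comap (σ : ℂ →+* ℂ) := by
      rw [Subring.closure_le]
      intro x hx
      show σ x ∈ Subring.closure (G0 : Set ℂ)
      have hx' := hx
      rw [Finset.mem_coe, hG0, Finset.mem_union, Finset.mem_union, Finset.mem_biUnion] at hx'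
      rcases hx' with (hx' | hx') | ⟨w, hw, hx'⟩
      · rw [hC'σ x hx']
        exact Subring.subset_closure hx
      · rw [Finset.mem_singleton] at hx'
        have h2 : σ x = x := by rw [hx']; exact hθσ
        rw [h2]
        exact Subring.subset_closure hx
      · obtain ⟨j, hj, rfl⟩ := Finset.mem_image.1 hx'
        rw [Finset.mem_range] at hj
        apply Subring.subset_closure
        rw [Finset.mem_coe, hG0]
        apply Finset.mem_union_right
        rw [Finset.mem_biUnion]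
        refine ⟨w, hw, ?_⟩
        rw [Finset.mem_image]
        by_cases hj' : j + 1 < m w
        · exact ⟨j + 1, Finset.mem_range.2 hj', Function.iterate_succ_apply' _ _ _⟩
        · have h3 : m w = j + 1 := by omega
          refine ⟨0, Finset.mem_range.2 (hm0 w hw), ?_⟩
          have h4 := hm w hw
          rw [h3, Function.iterate_succ_apply'] at h4
          rw [h4]
          rfl
    exact fun c => h1 c.2
  have hsub : ∀ x ∈ C', x ∈ Subring.closure (G0 : Set ℂ) := fun x hx =>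
    Subring.subset_closure (Finset.mem_union_left _ (Finset.mem_union_left _ hx))
  refine ⟨Subring.closure (G0 : Set ℂ), fun x hx => hsub x (Finset.mem_union_left _ hx), ?_, hσ, ?_⟩
  · intro w hw
    apply Subring.subset_closure
    rw [Finset.mem_coe, hG0]
    apply Finset.mem_union_right
    rw [Finset.mem_biUnion]
    exact ⟨w, hw, Finset.mem_image.2 ⟨0, Finset.mem_range.2 (hm0 w hw), rfl⟩⟩
  intro b hb D
  let tO : Fin r → Subring.closure (G0 : Set ℂ) := fun i => ⟨t i, hsub _ (htC i)⟩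
  let θO : Subring.closure (G0 : Set ℂ) := ⟨θ, Subring.subset_closure
    (Finset.mem_union_left _ (Finset.mem_union_right _ (Finset.mem_singleton_self _)))⟩
  obtain ⟨ev, hevdef⟩ : ∃ ev, ev = evO (Subring.closure (G0 : Set ℂ)) tO θO := ⟨_, rfl⟩
  have hev : ∀ Q, ((ev Q : Subring.closure (G0 : Set ℂ)) : ℂ) =
      Polynomial.aeval θ (Q.map (toAdj t)) := by
    intro Q
    rw [hevdef]
    exact evO_coe _ t θ tO θO (fun _ => rfl) rfl Q
  have hinj := T15.toAdj_injective ht
  have hevC : ∀ f, f ≠ 0 → ev (Polynomial.C f) ≠ 0 := by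
    intro f hf h0
    apply hf
    apply hinj
    rw [map_zero]
    have h1 := hev (Polynomial.C f)
    rw [h0, Polynomial.map_C, Polynomial.aeval_C] at h1
    exact Subtype.ext h1.symm
  obtain ⟨p, hp, hDp, φ, hφ0, hφσ⟩ := partE σ ht htσ G0 hGint hσ (b * ev (Polynomial.C (h * q)))
    (mul_ne_zero hb (hevC _ (mul_ne_zero hh hq0))) D
  rw [map_mul, mul_ne_zero_iff, map_mul, map_mul, map_mul, mul_ne_zero_iff] at hφ0
  obtain ⟨hφb, hCh, hCq⟩ := hφ0
  refine ⟨p, hp, hDp, φ, hφb, hφσ, ?_⟩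
  have hres : ∀ x : Subring.closure (G0 : Set ℂ), σ x = x →
      ∃ a : ℤ, φ x = (a : AlgebraicClosure (ZMod p)) := by
    intro x hx
    have h1 : φ x ^ p = φ x := by
      rw [← hφσ x]
      congr 1
      exact Subtype.ext hx
    obtain ⟨y, hy⟩ := mem_prime_field (φ x) h1
    refine ⟨(y.val : ℤ), ?_⟩
    rw [← hy, Int.cast_natCast, ← map_natCast (ZMod.castHom (dvd_refl p) _), ZMod.natCast_zmod_val]
  choose a ha using fun i => hres (tO i) (htσ i)
  obtain ⟨b0, hb0⟩ := hres θO hθσ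
  have hred : ∀ Q, φ (ev Q) = (((Q.map (MvPolynomial.eval a)).eval b0 : ℤ) :
      AlgebraicClosure (ZMod p)) := by
    intro Q
    rw [hevdef]
    exact evO_red _ tO θO φ a b0 ha hb0 Q
  have hdvd : ∀ n : ℤ, ((n : ℤ) : AlgebraicClosure (ZMod p)) = 0 ↔ (p : ℤ) ∣ n := fun n =>
    CharP.intCast_eq_zero_iff _ p n
  have hPev : ev P = 0 := Subtype.ext (by
    rw [hev, hP, map_mul, minpoly.aeval, mul_zero]
    rfl)
  have hb1 : (p : ℤ) ∣ (P.map (MvPolynomial.eval a)).eval b0 := by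
    rw [← hdvd, ← hred, hPev, map_zero]
  have hCe : ∀ f, (Polynomial.map (MvPolynomial.eval a) (Polynomial.C f)).eval b0 =
      MvPolynomial.eval a f := fun f => by rw [Polynomial.map_C, Polynomial.eval_C]
  have hqa : ¬ (p : ℤ) ∣ MvPolynomial.eval a q := by
    rw [← hdvd]
    intro h0
    apply hCq
    rw [hred, hCe]
    exact h0
  have hb2 : ¬ (p : ℤ) ∣ (Polynomial.derivative (P.map (MvPolynomial.eval a))).eval b0 := by
    rw [Polynomial.derivative_map, ← hdvd, ← hred]
    intro h0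
    apply hCh
    rw [← hbez, map_add, map_mul, map_mul, hPev, mul_zero, zero_add, map_mul, h0, mul_zero]
  obtain ⟨t', ht', ht'a⟩ := exists_indep p r a
  obtain ⟨χ, hχ⟩ := core' ht hg hθ hP hs Qx hq a hqa hb1 hb2 t' ht' ht'a
  obtain ⟨τ, hτ⟩ := extend_embedding p _ (countable_closure C') χ
  refine ⟨τ, fun c hc => ?_⟩
  have hcC' : (c : ℂ) ∈ C' := Finset.mem_union_left _ hc
  obtain ⟨y, hy1, hy2⟩ := hχ ⟨c, Subfield.subset_closure hcC'⟩ hcC'
  refine ⟨y, ?_, ?_⟩
  · rw [← hy1]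
    exact hτ ⟨c, Subfield.subset_closure hcC'⟩
  · have h1 : ev (Polynomial.C q) * c = ev (Qx c) := Subtype.ext (by
      show ((ev (Polynomial.C q) : Subring.closure (G0 : Set ℂ)) : ℂ) * (c : ℂ) = _
      rw [hev, hev, Polynomial.map_C, Polynomial.aeval_C]
      exact hq _ hcC')
    have h2 := congrArg φ h1
    rw [map_mul, hred, hred, hCe] at h2
    have h4 := congrArg (ZMod.castHom (dvd_refl p) (AlgebraicClosure (ZMod p))) hy2
    rw [map_mul, map_intCast, map_intCast] at h4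
    rw [← h4] at h2
    exact mul_left_cancel₀ (by rw [Ne, hdvd]; exact hqa) h2

end Pool.Agent.U100.MQ
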